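import Mathlib

set_option autoImplicit false
open MeasureTheory Set Metric Filter Topology Complex

namespace Pool.Agent.H.MP_7e8329_an

structure Crv (γ : ℝ → ℂ) : Prop where
  sm : ContDiff ℝ (⊤ : ℕ∞) γ
  per : Function.Periodic γ 1
  inj : ∀ s h, 0 < h → h < 1 → γ (s + h) ≠ γ s
  reg : ∀ t, deriv γ t ≠ 0

namespace Crv
variable {γ : ℝ → ℂ} (H : Crv γ)
include H

lemma sm1 : ContDiff ℝ (⊤ : ℕ∞) (deriv γ) := (contDiff_infty_iff_deriv.1 H.sm).2
lemma sm2 : ContDiff ℝ (⊤ : ℕ∞) (deriv (deriv γ)) := (contDiff_infty_iff_deriv.1 H.sm1).2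
lemma d1 (t : ℝ) : HasDerivAt γ (deriv γ t) t := ((contDiff_infty_iff_deriv.1 H.sm).1 t).hasDerivAt
lemma d2 (t : ℝ) : HasDerivAt (deriv γ) (deriv (deriv γ) t) t :=
  ((contDiff_infty_iff_deriv.1 H.sm1).1 t).hasDerivAt
lemma d3 (t : ℝ) : HasDerivAt (deriv (deriv γ)) (deriv (deriv (deriv γ)) t) t :=
  ((contDiff_infty_iff_deriv.1 H.sm2).1 t).hasDerivAt
lemma c0 : Continuous γ := H.sm.continuous
lemma c1 : Continuous (deriv γ) := H.sm1.continuous
lemma c2 : Continuous (deriv (deriv γ)) := H.sm2.continuous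

omit H in
lemma perd {f : ℝ → ℂ} (h : Function.Periodic f 1) : Function.Periodic (deriv f) 1 := by
  intro t
  rw [← deriv_comp_add_const]
  congr 1
  exact funext h

lemma per1 : Function.Periodic (deriv γ) 1 := perd H.per
lemma per2 : Function.Periodic (deriv (deriv γ)) 1 := perd H.per1

omit H in
lemma bdd {f : ℝ → ℂ} (hc : Continuous f) (h : Function.Periodic f 1) :
    ∃ K, 0 < K ∧ ∀ t, ‖f t‖ ≤ K := by
  obtain ⟨K, hK, h⟩ := (h.isBounded_of_continuous one_ne_zero hc).exists_pos_norm_le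
  exact ⟨K, hK, fun t => h _ (mem_range_self t)⟩

lemma compact : IsCompact (range γ) := H.per.compact_of_continuous one_ne_zero H.c0

lemma rev : Crv (fun t => γ (-t)) where
  sm := H.sm.comp contDiff_neg
  per := fun t => by
    beta_reduce
    rw [← H.per (-(t + 1))]; congr 1; ring
  inj := fun s h h0 h1 e => H.inj (-(s + h)) h h0 h1 (by rw [e]; congr 1; ring)
  reg := fun t => by
    rw [deriv_comp_neg]
    exact neg_ne_zero.2 (H.reg _)

lemma seg (s h : ℝ) : (h : ℂ) * ∫ u in (0:ℝ)..1, deriv γ (s + u * h) = γ (s + h) - γ s := by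
  have hd : ∀ u : ℝ, HasDerivAt (fun u : ℝ => γ (s + u * h)) (h * deriv γ (s + u * h)) u := by
    intro u
    have h1 : HasDerivAt (fun u : ℝ => s + u * h) h u := by
      simpa using ((hasDerivAt_id u).mul_const h).const_add s
    exact ((H.d1 _).scomp u h1).congr_deriv (by simp)
  have hc := H.c1
  have := intervalIntegral.integral_eq_sub_of_hasDerivAt (a := 0) (b := 1) (fun t _ => hd t)
    (Continuous.intervalIntegrable (by fun_prop) _ _)
  rw [intervalIntegral.integral_const_mul] at this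
  simpa using this

omit H in
noncomputable def ph (γ : ℝ → ℂ) (s h : ℝ) : ℂ :=
  (∫ u in (0:ℝ)..1, deriv γ (s + u * h)) - ∫ u in (0:ℝ)..1, deriv γ (s + u * (h - 1))

lemma ph_cont : Continuous fun p : ℝ × ℝ => ph γ p.1 p.2 := by
  have hc := H.c1
  unfold ph
  refine Continuous.sub ?_ ?_ <;>
  exact intervalIntegral.continuous_parametric_intervalIntegral_of_continuous' (by fun_prop) _ _

lemma ph_mul (s h : ℝ) : (h : ℂ) * (1 - h) * ph γ s h = γ (s + h) - γ s := by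
  have h1 := H.seg s h
  have h2 := H.seg s (h - 1)
  have h3 : γ (s + (h - 1)) = γ (s + h) := by rw [← H.per]; congr 1; ring
  rw [h3] at h2
  push_cast at h2
  unfold ph
  linear_combination (1 - h) * h1 + h * h2

lemma ph_zero (s : ℝ) : ph γ s 0 = deriv γ s := by
  have h2 := H.seg s (0 - 1)
  have h3 : γ (s + (0 - 1)) = γ s := by rw [← H.per]; congr 1; ring
  rw [h3, sub_self, mul_eq_zero] at h2
  unfold ph
  rw [h2.resolve_left (by norm_num)]
  simp

lemma ph_one (s : ℝ) : ph γ s 1 = -deriv γ s := by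
  have h2 := H.seg s 1
  rw [H.per, sub_self, mul_eq_zero] at h2
  unfold ph
  rw [h2.resolve_left (by norm_num)]
  simp

lemma ph_ne (s h : ℝ) (hh : h ∈ Icc (0:ℝ) 1) : ph γ s h ≠ 0 := by
  rcases hh.1.eq_or_lt with rfl | h0
  · rw [H.ph_zero]; exact H.reg s
  rcases hh.2.eq_or_lt with rfl | h1
  · rw [H.ph_one]; exact neg_ne_zero.2 (H.reg s)
  intro e
  have := H.ph_mul s h
  rw [e, mul_zero] at this
  exact H.inj s h h0 h1 (sub_eq_zero.1 this.symm)

lemma ph_symm (s h : ℝ) (hh : h ∈ Icc (0:ℝ) 1) : ph γ (s + h) (1 - h) = -ph γ s h := by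
  rcases hh.1.eq_or_lt with rfl | h0
  · simp [H.ph_zero, H.ph_one]
  rcases hh.2.eq_or_lt with rfl | h1
  · simp [H.ph_zero, H.ph_one, H.per1 s]
  have e1 := H.ph_mul s h
  have e2 := H.ph_mul (s + h) (1 - h)
  rw [show s + h + (1 - h) = s + 1 by ring, H.per] at e2
  push_cast at e2
  have n0 : (h : ℂ) ≠ 0 := ofReal_ne_zero.2 h0.ne'
  have n1 : (1 - h : ℂ) ≠ 0 := by exact_mod_cast (sub_pos.2 h1).ne'
  refine mul_left_cancel₀ (mul_ne_zero n0 n1) ?_
  linear_combination e1 + e2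

lemma chord : ∃ c, 0 < c ∧ ∀ s, ∀ h ∈ Icc (0:ℝ) 1, c * (h * (1 - h)) ≤ ‖γ (s + h) - γ s‖ := by
  obtain ⟨p, hp, hmin⟩ := (isCompact_Icc.prod isCompact_Icc).exists_isMinOn
    (s := Icc (0:ℝ) 1 ×ˢ Icc (0:ℝ) 1) ⟨(0, 0), by simp⟩ H.ph_cont.norm.continuousOn
  refine ⟨_, norm_pos_iff.2 (H.ph_ne p.1 p.2 hp.2), fun s h hh => ?_⟩
  have hper : Function.Periodic (fun s => ph γ s h) 1 := fun s => by
    have : ∀ x, deriv γ (s + 1 + x) = deriv γ (s + x) := fun x => by
      rw [← H.per1 (s + x)]; congr 1; ring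
    simp only [ph, this]
  obtain ⟨y, hy, e⟩ := hper.exists_mem_Ico₀ one_pos s
  have h1 : ‖ph γ p.1 p.2‖ ≤ ‖ph γ y h‖ := hmin (a := (y, h)) ⟨Ico_subset_Icc_self hy, hh⟩
  rw [← H.ph_mul, norm_mul, e, mul_comm]
  have : ‖(h : ℂ) * (1 - h)‖ = h * (1 - h) := by
    rw [show (h : ℂ) * (1 - h) = ((h * (1 - h) : ℝ) : ℂ) by push_cast; ring, norm_real,
      Real.norm_of_nonneg (mul_nonneg hh.1 (by linarith [hh.2]))]
  rw [this]
  exact mul_le_mul_of_nonneg_left h1 (mul_nonneg hh.1 (by linarith [hh.2]))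

lemma taylor : ∃ K, 0 < K ∧ ∀ s h : ℝ, ‖γ (s + h) - γ s - h * deriv γ s‖ ≤ K * h ^ 2 := by
  obtain ⟨K, hK, hb⟩ := bdd H.c2 H.per2
  refine ⟨K, hK, fun s h => ?_⟩
  have hc := H.c1
  have e : γ (s + h) - γ s - h * deriv γ s =
      h * ∫ u in (0:ℝ)..1, (deriv γ (s + u * h) - deriv γ s) := by
    rw [intervalIntegral.integral_sub (Continuous.intervalIntegrable (by fun_prop) _ _)
      (Continuous.intervalIntegrable (by fun_prop) _ _), mul_sub, H.seg]
    simp
  have l : ∀ u ∈ uIoc (0:ℝ) 1, ‖deriv γ (s + u * h) - deriv γ s‖ ≤ K * |h| := by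
    intro u hu
    rw [uIoc_of_le zero_le_one] at hu
    have := Convex.norm_image_sub_le_of_norm_hasDerivWithin_le (s := univ) (C := K)
      (fun x _ => (H.d2 x).hasDerivWithinAt) (fun x _ => hb x) convex_univ (mem_univ s)
      (mem_univ (s + u * h))
    refine this.trans (mul_le_mul_of_nonneg_left ?_ hK.le)
    rw [add_sub_cancel_left, Real.norm_eq_abs, abs_mul, abs_of_pos hu.1]
    exact mul_le_of_le_one_left (abs_nonneg _) hu.2
  have := intervalIntegral.norm_integral_le_of_norm_le_const l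
  rw [e, norm_mul, norm_real, Real.norm_eq_abs, ← sq_abs h]
  simp only [sub_zero, abs_one, mul_one] at this
  nlinarith [abs_nonneg h]

lemma red (s t : ℝ) : ∃ h ∈ Ico (0:ℝ) 1, γ t = γ (s + h) := by
  refine ⟨Int.fract (t - s), ⟨Int.fract_nonneg _, Int.fract_lt_one _⟩, ?_⟩
  rw [← H.per.int_mul ⌊t - s⌋ (s + _)]
  congr 1
  have := Int.floor_add_fract (t - s)
  linarith

/-- tangent discs -/
lemma disc : ∃ τ₀, 0 < τ₀ ∧ ∀ s t τ : ℝ, |τ| ≤ τ₀ →
    τ ^ 2 * ‖deriv γ s‖ ^ 2 + ‖γ t - γ s‖ ^ 2 / 2 ≤ ‖γ t - (γ s + I * τ * deriv γ s)‖ ^ 2 := by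
  obtain ⟨c, hc, hch⟩ := H.chord
  obtain ⟨K, hK, hT⟩ := H.taylor
  obtain ⟨L, hL, hb⟩ := bdd H.c1 H.per1
  refine ⟨c ^ 2 / (16 * K * L), by positivity, fun s t τ hτ => ?_⟩
  obtain ⟨h, hh, e⟩ := H.red s t
  rw [e]
  obtain ⟨Δ, hΔ⟩ : ∃ Δ, Δ = γ (s + h) - γ s := ⟨_, rfl⟩
  obtain ⟨v, hv⟩ : ∃ v, v = deriv γ s := ⟨_, rfl⟩
  have h1 := hch s h (Ico_subset_Icc_self hh)
  have h2 : ∃ k : ℝ, ‖Δ - k * v‖ ≤ K * (4 * (h * (1 - h)) ^ 2) := by
    rcases le_total h (1 / 2) with g | g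
    · refine ⟨h, ?_⟩
      rw [hΔ, hv]
      refine (hT s h).trans (mul_le_mul_of_nonneg_left ?_ hK.le)
      have : h ≤ 2 * (h * (1 - h)) := by nlinarith [hh.1]
      nlinarith [hh.1]
    · refine ⟨h - 1, ?_⟩
      have h3 : γ (s + h) = γ (s + (h - 1)) := by rw [← H.per (s + (h - 1))]; congr 1; ring
      rw [hΔ, hv, h3]
      refine (hT s (h - 1)).trans (mul_le_mul_of_nonneg_left ?_ hK.le)
      have : 1 - h ≤ 2 * (h * (1 - h)) := by nlinarith [hh.2]
      nlinarith [hh.2]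
  obtain ⟨k, hk⟩ := h2
  have hvL : ‖v‖ ≤ L := hv ▸ hb s
  rw [show γ (s + h) - (γ s + I * τ * deriv γ s) = Δ - I * τ * v by rw [hΔ, hv]; ring, ← hΔ, ← hv]
  rw [← hΔ] at h1
  have e1 : ‖Δ - I * τ * v‖ ^ 2 = ‖Δ‖ ^ 2 + τ ^ 2 * ‖v‖ ^ 2 -
      2 * τ * ((Δ - k * v) * (starRingEnd ℂ) v).im := by
    simp only [Complex.sq_norm, normSq_apply]
    simp
    ring
  have e2 : |((Δ - k * v) * (starRingEnd ℂ) v).im| ≤ K * (4 * (h * (1 - h)) ^ 2) * L := by
    refine (abs_im_le_norm _).trans ?_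
    rw [norm_mul, Complex.norm_conj]
    gcongr
  have e3 : 2 * τ * ((Δ - k * v) * (starRingEnd ℂ) v).im ≤
      2 * (c ^ 2 / (16 * K * L)) * (K * (4 * (h * (1 - h)) ^ 2) * L) := by
    refine (le_abs_self _).trans ?_
    rw [abs_mul, abs_mul, abs_two]
    gcongr
  have e4 : 2 * (c ^ 2 / (16 * K * L)) * (K * (4 * (h * (1 - h)) ^ 2) * L) =
      (c * (h * (1 - h))) ^ 2 / 2 := by field_simp; ring
  have e5 : (c * (h * (1 - h))) ^ 2 ≤ ‖Δ‖ ^ 2 :=
    pow_le_pow_left₀ (mul_nonneg hc.le (mul_nonneg hh.1 (by linarith [hh.2]))) h1 2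
  linarith

omit H in
lemma logc {f : ℝ → ℂ} (hf : Continuous f) {a b : ℝ} (hab : a ≤ b) {w : ℂ}
    (h : ∀ t ∈ Icc a b, cexp (f t) = w) : f a = f b :=
  isCoveringMap_exp.constOn_of_comp (s := Icc a b) isPreconnected_Icc hf.continuousOn
    (fun x hx y hy => Subtype.ext ((h x hx).trans (h y hy).symm)) (left_mem_Icc.2 hab)
    (right_mem_Icc.2 hab)

/-- Umlaufsatz -/
lemma umlauf (s₀ : ℝ) (hmin : ∀ t, (γ s₀).im ≤ (γ t).im) (hre : 0 ≤ (deriv γ s₀).re) :
    ∫ s in (0:ℝ)..1, (deriv (deriv γ) s / deriv γ s).im = 2 * Real.pi := by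
  have him : (deriv γ s₀).im = 0 := by
    have h1 : HasDerivAt (fun t => (γ t).im) (deriv γ s₀).im s₀ :=
      imCLM.hasFDerivAt.comp_hasDerivAt s₀ (H.d1 s₀)
    exact IsLocalMin.hasDerivAt_eq_zero (Eventually.of_forall hmin) h1
  have hre' : 0 < (deriv γ s₀).re := lt_of_le_of_ne hre fun e => H.reg s₀ (Complex.ext e.symm him)
  obtain ⟨r, hr⟩ : ∃ r, r = (deriv γ s₀).re := ⟨_, rfl⟩
  have hrr : deriv γ s₀ = r := Complex.ext (by simp [hr]) (by simp [him])
  rw [← hr] at hre'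
  have cl : ∀ h : ℝ, max 0 (min 1 h) ∈ Icc (0:ℝ) 1 := fun h =>
    ⟨le_max_left _ _, max_le zero_le_one (min_le_left _ _)⟩
  have cl' : ∀ h ∈ Icc (0:ℝ) 1, max 0 (min 1 h) = h := fun h hh => by
    rw [min_eq_right hh.2, max_eq_right hh.1]
  let F : C(ℝ × ℝ, {z : ℂ // z ≠ 0}) := ⟨fun p => ⟨ph γ p.1 (max 0 (min 1 p.2)), H.ph_ne _ _ (cl _)⟩,
    (H.ph_cont.comp (f := fun p : ℝ × ℝ => (p.1, max 0 (min 1 p.2))) (by fun_prop)).subtype_mk _⟩
  obtain ⟨θ, ⟨h0, hθ⟩, -⟩ := isCoveringMap_exp.existsUnique_continuousMap_lifts F (s₀, 0)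
    (Real.log r : ℂ) (Subtype.ext (by
      simp only [F, ContinuousMap.coe_mk]
      rw [cl' 0 (by simp), H.ph_zero, hrr, ← ofReal_exp, Real.exp_log hre']))
  have hθ' : ∀ s, ∀ h ∈ Icc (0:ℝ) 1, cexp (θ (s, h)) = ph γ s h := fun s h hh => by
    have := congrArg Subtype.val (congrFun hθ (s, h))
    simpa [F, cl' h hh] using this
  have hθc := θ.continuous
  have s1 : (θ (s₀, 1)).im = Real.pi := by
    have hsin : ∀ h ∈ Icc (0:ℝ) 1, 0 ≤ Real.sin (θ (s₀, h)).im := by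
      intro h hh
      have e : (ph γ s₀ h).im = Real.exp (θ (s₀, h)).re * Real.sin (θ (s₀, h)).im := by
        rw [← hθ' _ _ hh, exp_im]
      have : 0 ≤ (ph γ s₀ h).im := by
        rcases hh.1.eq_or_lt with rfl | g0
        · rw [H.ph_zero, him]
        rcases hh.2.eq_or_lt with rfl | g1
        · rw [H.ph_one, neg_im, him, neg_zero]
        have e1 := congrArg Complex.im (H.ph_mul s₀ h)
        rw [show (h : ℂ) * (1 - h) = ((h * (1 - h) : ℝ) : ℂ) by push_cast; ring, im_ofReal_mul,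
          sub_im] at e1
        have := hmin (s₀ + h)
        have g : 0 < h * (1 - h) := mul_pos g0 (by linarith)
        exact nonneg_of_mul_nonneg_right (a := h * (1 - h)) (by linarith) g |> fun x => x
      rw [e] at this
      exact nonneg_of_mul_nonneg_right this (Real.exp_pos _) |> fun x => x
    have hc : Continuous fun h : ℝ => (θ (s₀, h)).im := by fun_prop
    have z0 : (θ (s₀, 0)).im = 0 := by rw [h0]; simp
    have pp := Real.pi_pos
    have lo : -(Real.pi / 2) < (θ (s₀, 1)).im := by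
      by_contra g
      push Not at g
      obtain ⟨h, hh, e⟩ := intermediate_value_Icc' zero_le_one hc.continuousOn
        (show -(Real.pi / 2) ∈ Icc _ _ from ⟨g, by rw [z0]; linarith⟩)
      have := hsin h hh
      beta_reduce at e
      rw [e, Real.sin_neg, Real.sin_pi_div_two] at this
      linarith
    have hi : (θ (s₀, 1)).im < -(Real.pi / 2) + 2 * Real.pi := by
      by_contra g
      push Not at g
      obtain ⟨h, hh, e⟩ := intermediate_value_Icc zero_le_one hc.continuousOn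
        (show -(Real.pi / 2) + 2 * Real.pi ∈ Icc _ _ from ⟨by rw [z0]; linarith, g⟩)
      have := hsin h hh
      beta_reduce at e
      rw [e, Real.sin_add_two_pi, Real.sin_neg, Real.sin_pi_div_two] at this
      linarith
    have e1 : cexp (θ (s₀, 1)) = cexp (Real.log r + Real.pi * I) := by
      rw [hθ' _ _ (by simp), H.ph_one, hrr, exp_add, exp_pi_mul_I, ← ofReal_exp, Real.exp_log hre']
      ring
    obtain ⟨n, hn⟩ := exp_eq_exp_iff_exists_int.1 e1
    have e2 : (θ (s₀, 1)).im = Real.pi + n * (2 * Real.pi) := by rw [hn]; simp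
    rw [e2] at lo hi ⊢
    have a1 : (-1 : ℝ) < n := by nlinarith
    have a2 : (n : ℝ) < 1 := by nlinarith
    have : n = 0 := by
      have b1 : (-1 : ℤ) < n := by exact_mod_cast a1
      have b2 : n < (1 : ℤ) := by exact_mod_cast a2
      omega
    simp [this]
  have s2 := logc (f := fun h => θ (s₀ + h, 1 - h) - θ (s₀, h)) (by fun_prop) zero_le_one (w := -1)
    (fun h hh => by
      rw [exp_sub, hθ' _ _ hh, hθ' _ _ ⟨by linarith [hh.2], by linarith [hh.1]⟩, H.ph_symm _ _ hh,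
        neg_div, div_self (H.ph_ne _ _ hh)])
  have hq : Continuous fun s => deriv (deriv γ) s / deriv γ s := H.c2.div H.c1 H.reg
  have hI : ∀ s, HasDerivAt (fun s => ∫ u in s₀..s, deriv (deriv γ) u / deriv γ u)
      (deriv (deriv γ) s / deriv γ s) s := fun s => (hq.integral_hasStrictDerivAt s₀ s).hasDerivAt
  have hIc : Continuous fun s => ∫ u in s₀..s, deriv (deriv γ) u / deriv γ u :=
    continuous_iff_continuousAt.2 fun s => (hI s).continuousAt
  have hz : ∀ s, HasDerivAt (fun s => deriv γ s * cexp (-∫ u in s₀..s, deriv (deriv γ) u / deriv γ u))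
      0 s := fun s => by
    refine ((H.d2 s).fun_mul (hI s).fun_neg.cexp).congr_deriv ?_
    have := H.reg s
    field_simp
    ring
  have s3 := logc (f := fun s => θ (s, 0) - ∫ u in s₀..s, deriv (deriv γ) u / deriv γ u)
    (by fun_prop) (a := s₀) (b := s₀ + 1) (by linarith)
    (w := deriv γ s₀ * cexp (-∫ u in s₀..s₀, deriv (deriv γ) u / deriv γ u)) (fun s _ => by
      rw [sub_eq_add_neg, exp_add, hθ' _ _ (by simp), H.ph_zero]
      exact is_const_of_deriv_eq_zero (fun x => (hz x).differentiableAt) (fun x => (hz x).deriv) _ _)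
  have hp : Function.Periodic (fun s => deriv (deriv γ) s / deriv γ s) 1 := fun s => by
    simp only [H.per1 s, H.per2 s]
  rw [hp.intervalIntegral_add_eq s₀ 0, zero_add] at s3
  have e := (imCLM.intervalIntegral_comp_comm (hq.intervalIntegrable (μ := volume) 0 1))
  simp only [imCLM_apply] at e
  rw [e]
  simp only [add_zero, sub_zero, sub_self, intervalIntegral.integral_same] at s2 s3
  have a2 := congrArg Complex.im s2
  have a3 := congrArg Complex.im s3
  simp only [sub_im, s1, h0, ofReal_im] at a2 a3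
  linarith

end Crv

end Pool.Agent.H.MP_7e8329_an
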