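import Pool.Agent.H.MP_7e8329_an.A

set_option autoImplicit false
open MeasureTheory Set Metric Filter Topology Complex

namespace Pool.Agent.H.MP_7e8329_an

lemma green0 (f g D : ℝ × ℝ → ℂ) (a b : ℝ × ℝ) (hle : a ≤ b) (hf : Continuous f) (hg : Continuous g)
    (hD : IntegrableOn D (Icc a b))
    (h : ∀ x ∈ Ioo a.1 b.1 ×ˢ Ioo a.2 b.2, ∃ f' g' : ℝ × ℝ →L[ℝ] ℂ, HasFDerivAt f f' x ∧
      HasFDerivAt g g' x ∧ f' (1, 0) + g' (0, 1) = D x) :
    ∫ x in Icc a b, D x = (((∫ x in a.1..b.1, g (x, b.2)) - ∫ x in a.1..b.1, g (x, a.2)) +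
      ∫ y in a.2..b.2, f (b.1, y)) - ∫ y in a.2..b.2, f (a.1, y) := by
  have h' : ∀ x, ∃ f' g' : ℝ × ℝ →L[ℝ] ℂ, (x ∈ Ioo a.1 b.1 ×ˢ Ioo a.2 b.2 → HasFDerivAt f f' x ∧
      HasFDerivAt g g' x) ∧ f' (1, 0) + g' (0, 1) = D x := by
    intro x
    by_cases hx : x ∈ Ioo a.1 b.1 ×ˢ Ioo a.2 b.2
    · obtain ⟨f', g', h1, h2, h3⟩ := h x hx
      exact ⟨f', g', fun _ => ⟨h1, h2⟩, h3⟩
    · exact ⟨(ContinuousLinearMap.fst ℝ ℝ ℝ).smulRight (D x), 0, fun h => absurd h hx, by simp⟩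
  choose f' g' h1 h2 using h'
  have := integral_divergence_prod_Icc_of_hasFDerivAt_off_countable_of_le f g f' g' a b hle ∅
    countable_empty hf.continuousOn hg.continuousOn (fun x hx => (h1 x hx.1).1)
    (fun x hx => (h1 x hx.1).2) (by simpa only [h2] using hD)
  simpa only [h2] using this

noncomputable def E (p : ℝ × ℝ) : ℂ := p.1 + p.2 * I

lemma E_eq : E = measurableEquivRealProd.symm := by
  funext p
  apply Complex.ext <;> simp [E]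

lemma intE (f : ℂ → ℂ) (s : Set ℂ) : ∫ p in E ⁻¹' s, f (E p) = ∫ z in s, f z := by
  rw [E_eq]
  exact volume_preserving_equiv_real_prod.symm.setIntegral_preimage_emb
    measurableEquivRealProd.symm.measurableEmbedding f s

lemma E_cont : Continuous E := by unfold E; fun_prop

lemma E_der (p : ℝ × ℝ) : HasFDerivAt E ((ContinuousLinearMap.fst ℝ ℝ ℝ).smulRight (1 : ℂ) +
    (ContinuousLinearMap.snd ℝ ℝ ℝ).smulRight I) p := by
  have : E = ((ContinuousLinearMap.fst ℝ ℝ ℝ).smulRight (1 : ℂ) +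
    (ContinuousLinearMap.snd ℝ ℝ ℝ).smulRight I : ℝ × ℝ →L[ℝ] ℂ) := by
    funext p; simp [E]
  rw [this]
  exact ContinuousLinearMap.hasFDerivAt _

lemma green_int (U : Set ℂ) (hU : IsOpen U) (hb : Bornology.IsBounded U) (W V : ℂ → ℂ)
    (hV : Continuous V) (hd : ∀ z ∈ U, DifferentiableAt ℝ W z)
    (hWV : ∀ z ∈ U, fderiv ℝ W z 1 + I * fderiv ℝ W z I = V z)
    (h0 : ∀ z ∈ frontier U, ∀ᶠ w in 𝓝 z, W w = 0) : ∫ z in U, V z = 0 := by
  obtain ⟨R, hR0, hR⟩ := hb.exists_pos_norm_lt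
  have key : ∀ z, ∃ L : ℂ →L[ℝ] ℂ, HasFDerivAt (U.indicator W) L z ∧ L 1 + I * L I = U.indicator V z := by
    intro z
    by_cases hz : z ∈ U
    · refine ⟨fderiv ℝ W z, (hd z hz).hasFDerivAt.congr_of_eventuallyEq ?_, by simp [hz, hWV z hz]⟩
      filter_upwards [hU.mem_nhds hz] with w hw using indicator_of_mem hw _
    · refine ⟨0, (hasFDerivAt_const (0 : ℂ) z).congr_of_eventuallyEq ?_, by simp [hz]⟩
      by_cases hc : z ∈ closure U
      · filter_upwards [h0 z ⟨hc, by rwa [hU.interior_eq]⟩] with w hw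
        by_cases hw' : w ∈ U <;> simp [hw, hw']
      · filter_upwards [isClosed_closure.isOpen_compl.mem_nhds hc] with w hw
        exact indicator_of_notMem (fun h => hw (subset_closure h)) _
  choose L hL1 hL2 using key
  have hc : Continuous (U.indicator W) := continuous_iff_continuousAt.2 fun z => (hL1 z).continuousAt
  have hE := E_cont
  have hUE : MeasurableSet (E ⁻¹' U) := (hU.preimage hE).measurableSet
  have hsub : E ⁻¹' U ⊆ Icc (-R, -R) (R, R) := by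
    intro p hp
    have h1 := (abs_re_le_norm (E p)).trans (hR _ hp).le
    have h2 := (abs_im_le_norm (E p)).trans (hR _ hp).le
    simp only [E, add_re, ofReal_re, mul_re, I_re, mul_zero, ofReal_im, I_im, mul_one, sub_self, add_zero,
      add_im, mul_im, zero_add, abs_le] at h1 h2
    exact ⟨⟨h1.1, h2.1⟩, h1.2, h2.2⟩
  have hz : ∀ p : ℝ × ℝ, |p.1| = R ∨ |p.2| = R → U.indicator W (E p) = 0 := by
    intro p hp
    refine indicator_of_notMem (fun h => ?_) _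
    have h1 := (abs_re_le_norm (E p)).trans_lt (hR _ h)
    have h2 := (abs_im_le_norm (E p)).trans_lt (hR _ h)
    simp only [E, add_re, ofReal_re, mul_re, I_re, mul_zero, ofReal_im, I_im, mul_one, sub_self, add_zero,
      add_im, mul_im, zero_add] at h1 h2
    rcases hp with h | h <;> linarith
  have := green0 (fun p => U.indicator W (E p)) (fun p => I * U.indicator W (E p))
    ((E ⁻¹' U).indicator fun p => V (E p)) (-R, -R) (R, R) ⟨by simp [hR0.le], by simp [hR0.le]⟩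
    (by fun_prop) (by fun_prop)
    (((hV.comp hE).continuousOn.integrableOn_compact isCompact_Icc).indicator hUE)
    (fun x _ => ⟨_, _, (hL1 _).comp x (E_der x), ((hL1 _).comp x (E_der x)).const_mul I, by
      have := hL2 (E x)
      by_cases hx : E x ∈ U <;> simpa [hx] using this⟩)
  rw [setIntegral_indicator hUE, inter_eq_right.2 hsub, intE] at this
  rw [this]
  simp [hz, abs_of_pos hR0]

noncomputable def Γ (γ : ℝ → ℂ) (s τ : ℝ) : ℂ := γ s + I * τ * deriv γ s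

noncomputable def Jc (γ : ℝ → ℂ) (s τ : ℝ) : ℝ :=
  ‖deriv γ s‖ ^ 2 + τ * ((starRingEnd ℂ) (deriv (deriv γ) s) * deriv γ s).im

structure Col (γ : ℝ → ℂ) (U : Set ℂ) (τ₀ ρ : ℝ) : Prop where
  p1 : 0 < τ₀
  p2 : 0 < ρ
  inj : ∀ s ∈ Ico (0:ℝ) 1, ∀ s' ∈ Ico (0:ℝ) 1, ∀ τ τ', |τ| ≤ τ₀ → |τ'| ≤ τ₀ → Γ γ s τ = Γ γ s' τ' →
    s = s' ∧ τ = τ'
  jac : ∀ s τ, |τ| ≤ τ₀ → 0 < Jc γ s τ
  inU : ∀ s τ, 0 < τ → τ ≤ τ₀ → Γ γ s τ ∈ U
  out : ∀ s τ, -τ₀ ≤ τ → τ ≤ 0 → Γ γ s τ ∉ U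
  near : ∀ z, infDist z (range γ) < ρ → ∃ s ∈ Ico (0:ℝ) 1, ∃ τ, |τ| < τ₀ ∧ z = Γ γ s τ
  far : ∀ s, ρ ≤ infDist (Γ γ s τ₀) (range γ)

lemma det2 (a b : ℂ) : (reCLM.smulRight a + imCLM.smulRight b : ℂ →L[ℝ] ℂ).det =
    ((starRingEnd ℂ) a * b).im := by
  rw [ContinuousLinearMap.det, ← LinearMap.det_toMatrix basisOneI, Matrix.det_fin_two]
  simp [LinearMap.toMatrix_apply]
  ring

lemma lin2 (L : ℂ →L[ℝ] ℂ) (v : ℂ) : L v = v.re * L 1 + v.im * L I := by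
  conv_lhs => rw [show v = v.re • (1 : ℂ) + v.im • I by simp]
  rw [map_add, map_smul, map_smul]
  simp

lemma green_col {γ : ℝ → ℂ} (H : Crv γ) {U : Set ℂ} (hU : IsOpen U) {τ₀ ρ : ℝ} (C : Col γ U τ₀ ρ)
    (W V : ℂ → ℂ) (hW : Continuous W) (hV : Continuous V) (hd : ∀ z ∈ U, DifferentiableAt ℝ W z)
    (hWV : ∀ z ∈ U, fderiv ℝ W z 1 + I * fderiv ℝ W z I = V z)
    (hW0 : ∀ z, ρ ≤ infDist z (range γ) → W z = 0) (hV0 : ∀ z, ρ ≤ infDist z (range γ) → V z = 0) :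
    I * ∫ z in U, V z = ∫ s in (0:ℝ)..1, W (γ s) * deriv γ s := by
  have c0 := H.c0
  have c1 := H.c1
  have c2 := H.c2
  have hS : MeasurableSet (Ico (0:ℝ) 1 ×ℂ Ioo 0 τ₀) :=
    (measurableSet_Ico.preimage continuous_re.measurable).inter
      (measurableSet_Ioo.preimage continuous_im.measurable)
  have e1 : ∫ z in U, V z = ∫ z in (fun w : ℂ => Γ γ w.re w.im) '' (Ico (0:ℝ) 1 ×ℂ Ioo 0 τ₀), V z := by
    refine setIntegral_eq_of_subset_of_forall_sdiff_eq_zero hU.measurableSet ?_ fun z hz => ?_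
    · rintro _ ⟨w, hw, rfl⟩
      exact C.inU _ _ hw.2.1 hw.2.2.le
    · refine hV0 z (not_lt.1 fun h => hz.2 ?_)
      obtain ⟨s, hs, τ, hτ, rfl⟩ := C.near z h
      have h1 : 0 < τ := not_le.1 fun g => C.out s τ (abs_lt.1 hτ).1.le g hz.1
      exact ⟨⟨s, τ⟩, ⟨hs, h1, (abs_lt.1 hτ).2⟩, rfl⟩
  have hG : ∀ w : ℂ, HasFDerivAt (fun w : ℂ => Γ γ w.re w.im)
      (reCLM.smulRight (deriv γ w.re + I * w.im * deriv (deriv γ) w.re) +
        imCLM.smulRight (I * deriv γ w.re)) w := by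
    intro w
    have h1 := (H.d1 w.re).hasFDerivAt.comp w reCLM.hasFDerivAt
    have h2 := (H.d2 w.re).hasFDerivAt.comp w reCLM.hasFDerivAt
    have h3 : HasFDerivAt (fun w : ℂ => (w.im : ℂ)) (ofRealCLM.comp imCLM) w :=
      (ofRealCLM.comp imCLM).hasFDerivAt
    refine (h1.add ((h3.const_mul I).mul h2)).congr_fderiv ?_
    ext v
    simp
    ring
  have e2 := integral_image_eq_integral_abs_det_fderiv_smul volume hS
    (fun w _ => (hG w).hasFDerivWithinAt) (fun w hw w' hw' e => by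
      obtain ⟨h1, h2⟩ := C.inj _ hw.1 _ hw'.1 _ _ (abs_le.2 ⟨by linarith [hw.2.1, C.p1], hw.2.2.le⟩)
        (abs_le.2 ⟨by linarith [hw'.2.1, C.p1], hw'.2.2.le⟩) e
      exact Complex.ext h1 h2) V
  have hJ : ∀ s τ : ℝ, ((starRingEnd ℂ) (deriv γ s + I * τ * deriv (deriv γ) s) * (I * deriv γ s)).im
      = Jc γ s τ := by
    intro s τ
    simp only [Jc, Complex.sq_norm, normSq_apply]
    simp
    ring
  have e3 : ∫ w in Ico (0:ℝ) 1 ×ℂ Ioo 0 τ₀, |(reCLM.smulRight (deriv γ w.re + I * w.im * deriv (deriv γ) w.re) +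
        imCLM.smulRight (I * deriv γ w.re) : ℂ →L[ℝ] ℂ).det| • V (Γ γ w.re w.im) =
      ∫ w in Ico (0:ℝ) 1 ×ℂ Ioo 0 τ₀, (Jc γ w.re w.im : ℂ) * V (Γ γ w.re w.im) := by
    refine setIntegral_congr_fun hS fun w hw => ?_
    beta_reduce
    rw [det2, hJ, abs_of_pos (C.jac _ _ (abs_le.2 ⟨by linarith [hw.2.1, C.p1], hw.2.2.le⟩)), real_smul]
  have e4 := intE (fun w => (Jc γ w.re w.im : ℂ) * V (Γ γ w.re w.im)) (Ico (0:ℝ) 1 ×ℂ Ioo 0 τ₀)
  have e5 : E ⁻¹' (Ico (0:ℝ) 1 ×ℂ Ioo 0 τ₀) = Ico (0:ℝ) 1 ×ˢ Ioo 0 τ₀ := by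
    ext p; simp [E, mem_reProdIm]
  have e6 : (Ico (0:ℝ) 1 ×ˢ Ioo 0 τ₀ : Set (ℝ × ℝ)) =ᵐ[volume] Icc ((0:ℝ), (0:ℝ)) (1, τ₀) := by
    rw [← Icc_prod_Icc, Measure.volume_eq_prod]
    exact Measure.set_prod_ae_eq Ico_ae_eq_Icc Ioo_ae_eq_Icc
  rw [e5, setIntegral_congr_set e6] at e4
  simp only [E, add_re, ofReal_re, mul_re, I_re, mul_zero, ofReal_im, I_im, mul_one, sub_self, add_zero,
    add_im, mul_im, zero_add] at e4
  rw [e1, e2, e3, ← e4, ← integral_const_mul]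
  have cΓ : Continuous fun p : ℝ × ℝ => Γ γ p.1 p.2 := by unfold Γ; fun_prop
  have cJ : Continuous fun p : ℝ × ℝ => Jc γ p.1 p.2 := by unfold Jc; fun_prop
  rw [green0 (fun p => W (Γ γ p.1 p.2) * (I * deriv γ p.1))
    (fun p => -(W (Γ γ p.1 p.2) * (deriv γ p.1 + I * p.2 * deriv (deriv γ) p.1))) _ (0, 0) (1, τ₀)
    ⟨zero_le_one, C.p1.le⟩ (by fun_prop) (by fun_prop)
    (Continuous.continuousOn (by fun_prop) |>.integrableOn_compact isCompact_Icc) ?_]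
  · have p0 : γ 1 = γ 0 := by simpa using H.per 0
    have p1 : deriv γ 1 = deriv γ 0 := by simpa using H.per1 0
    have p2 : ∀ τ, Γ γ 1 τ = Γ γ 0 τ := fun τ => by simp only [Γ, p0, p1]
    have p3 : ∀ s, Γ γ s 0 = γ s := fun s => by simp [Γ]
    simp [hW0 _ (C.far _), p1, p2, p3]
  · intro p hp
    have hz : Γ γ p.1 p.2 ∈ U := C.inU _ _ hp.2.1 hp.2.2.le
    have h1 := (H.d1 p.1).hasFDerivAt.comp p hasFDerivAt_fst
    have h2 := (H.d2 p.1).hasFDerivAt.comp p hasFDerivAt_fst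
    have h3 := (H.d3 p.1).hasFDerivAt.comp p hasFDerivAt_fst
    have h4 : HasFDerivAt (fun p : ℝ × ℝ => (p.2 : ℂ)) (ofRealCLM.comp (ContinuousLinearMap.snd ℝ ℝ ℝ)) p :=
      (ofRealCLM.comp (ContinuousLinearMap.snd ℝ ℝ ℝ)).hasFDerivAt
    have h5 := (hd _ hz).hasFDerivAt.comp p (h1.add ((h4.const_mul I).mul h2))
    refine ⟨_, _, h5.mul (h2.const_mul I), (h5.mul (h2.add ((h4.const_mul I).mul h3))).neg, ?_⟩
    rw [← hWV _ hz, ← hJ]
    simp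
    rw [lin2 _ (deriv γ p.1), lin2 _ (I * p.2 * deriv (deriv γ) p.1), lin2 _ (deriv γ p.1 * I)]
    apply Complex.ext <;> simp <;> ring

lemma cutoff {A B : Set ℂ} (hA : IsClosed A) (hB : IsClosed B) (hAB : Disjoint A B) :
    ∃ ω : ℂ → ℂ, ContDiff ℝ 1 ω ∧ (∀ z ∈ A, ∀ᶠ w in 𝓝 z, ω w = 0) ∧ ∀ z ∈ B, ∀ᶠ w in 𝓝 z, ω w = 1 := by
  obtain ⟨f, h0, h1, -⟩ := exists_contMDiffMap_zero_one_nhds_of_isClosed (n := 1)
    (modelWithCornersSelf ℝ ℂ) hA hB hAB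
  refine ⟨fun z => (f z : ℂ), ofRealCLM.contDiff.comp f.contMDiff.contDiff, fun z hz => ?_, fun z hz => ?_⟩
  · filter_upwards [eventually_nhdsSet_iff_forall.1 h0 z hz] with w hw using by simp [hw]
  · filter_upwards [eventually_nhdsSet_iff_forall.1 h1 z hz] with w hw using by simp [hw]

lemma piece {γ : ℝ → ℂ} (H : Crv γ) {U K : Set ℂ} (hU : IsOpen U) {τ₀ ρ : ℝ} (C : Col γ U τ₀ ρ)
    (hK : IsClosed K) (hKd : Disjoint (range γ) K)
    (W V : ℂ → ℂ) (hW : Continuous W) (hV : Continuous V) (hd : ∀ z ∈ U, DifferentiableAt ℝ W z)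
    (hWV : ∀ z ∈ U, fderiv ℝ W z 1 + I * fderiv ℝ W z I = V z) :
    ∃ W₁ V₁ : ℂ → ℂ, Continuous V₁ ∧ (∀ z ∈ U, DifferentiableAt ℝ W₁ z) ∧
      (∀ z ∈ U, fderiv ℝ W₁ z 1 + I * fderiv ℝ W₁ z I = V₁ z) ∧
      (∀ z ∈ K, ∀ᶠ w in 𝓝 z, W₁ w = 0) ∧ (∀ z ∈ range γ, ∀ᶠ w in 𝓝 z, W₁ w = W w) ∧
      I * ∫ z in U, V₁ z = ∫ s in (0:ℝ)..1, W (γ s) * deriv γ s := by
  obtain ⟨ω, hω, h0, h1⟩ := cutoff (A := {z | ρ ≤ infDist z (range γ)} ∪ K) (B := range γ)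
    ((isClosed_le continuous_const (continuous_infDist_pt _)).union hK) H.compact.isClosed
    (disjoint_union_left.2 ⟨disjoint_left.2 fun z hz hz' => by
      have : ρ ≤ infDist z (range γ) := hz
      rw [infDist_zero_of_mem hz'] at this
      linarith [C.p2], hKd.symm⟩)
  have cω := hω.continuous
  have cω' : Continuous (fderiv ℝ ω) := hω.continuous_fderiv (by norm_num)
  have hd1 : ∀ z ∈ U, HasFDerivAt (fun z => ω z * W z) (ω z • fderiv ℝ W z + W z • fderiv ℝ ω z) z :=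
    fun z hz => (hω.differentiable (by norm_num) z).hasFDerivAt.mul (hd z hz).hasFDerivAt
  have hWV1 : ∀ z ∈ U, fderiv ℝ (fun z => ω z * W z) z 1 + I * fderiv ℝ (fun z => ω z * W z) z I =
      ω z * V z + W z * (fderiv ℝ ω z 1 + I * fderiv ℝ ω z I) := fun z hz => by
    rw [(hd1 z hz).fderiv, ← hWV z hz]
    simp
    ring
  refine ⟨fun z => ω z * W z, fun z => ω z * V z + W z * (fderiv ℝ ω z 1 + I * fderiv ℝ ω z I),
    by fun_prop, fun z hz => (hd1 z hz).differentiableAt, hWV1, fun z hz => ?_, fun z hz => ?_, ?_⟩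
  · filter_upwards [h0 z (Or.inr hz)] with w hw using by simp [hw]
  · filter_upwards [h1 z hz] with w hw using by simp [hw]
  rw [green_col H hU C (fun z => ω z * W z) _ (by fun_prop) (by fun_prop)
    (fun z hz => (hd1 z hz).differentiableAt) hWV1 (fun z hz => ?_) (fun z hz => ?_)]
  · simp only [(h1 _ (mem_range_self _)).self_of_nhds, one_mul]
  · simp [(h0 z (Or.inl hz)).self_of_nhds]
  · have : fderiv ℝ ω z = 0 := by
      rw [EventuallyEq.fderiv_eq (f := fun _ => (0 : ℂ)) (h0 z (Or.inl hz))]; simp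
    simp [(h0 z (Or.inl hz)).self_of_nhds, this]

theorem green {γ₁ γ₂ : ℝ → ℂ} (H₁ : Crv γ₁) (H₂ : Crv γ₂) {U : Set ℂ} (hU : IsOpen U)
    (hb : Bornology.IsBounded U) {τ₁ ρ₁ τ₂ ρ₂ : ℝ} (C₁ : Col γ₁ U τ₁ ρ₁) (C₂ : Col γ₂ U τ₂ ρ₂)
    (hdis : Disjoint (range γ₁) (range γ₂)) (hfr : frontier U = range γ₁ ∪ range γ₂)
    (W V : ℂ → ℂ) (hW : Continuous W) (hV : Continuous V) (hd : ∀ z ∈ U, DifferentiableAt ℝ W z)
    (hWV : ∀ z ∈ U, fderiv ℝ W z 1 + I * fderiv ℝ W z I = V z) :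
    I * ∫ z in U, V z = (∫ s in (0:ℝ)..1, W (γ₁ s) * deriv γ₁ s) +
      ∫ s in (0:ℝ)..1, W (γ₂ s) * deriv γ₂ s := by
  obtain ⟨W₁, V₁, a1, a2, a3, a4, a5, a6⟩ := piece H₁ hU C₁ H₂.compact.isClosed hdis W V hW hV hd hWV
  obtain ⟨W₂, V₂, b1, b2, b3, b4, b5, b6⟩ := piece H₂ hU C₂ H₁.compact.isClosed hdis.symm W V hW hV hd hWV
  have hi : ∀ f : ℂ → ℂ, Continuous f → IntegrableOn f U := fun f hf =>
    (hf.continuousOn.integrableOn_compact hb.isCompact_closure).mono_set subset_closure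
  have hd0 : ∀ z ∈ U, HasFDerivAt (fun z => W z - W₁ z - W₂ z)
      (fderiv ℝ W z - fderiv ℝ W₁ z - fderiv ℝ W₂ z) z := fun z hz =>
    ((hd z hz).hasFDerivAt.sub (a2 z hz).hasFDerivAt).sub (b2 z hz).hasFDerivAt
  have := green_int U hU hb (fun z => W z - W₁ z - W₂ z) (fun z => V z - V₁ z - V₂ z) (by fun_prop)
    (fun z hz => (hd0 z hz).differentiableAt) (fun z hz => by
      rw [(hd0 z hz).fderiv, ← hWV z hz, ← a3 z hz, ← b3 z hz]
      simp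
      ring) (fun z hz => by
      rw [hfr] at hz
      rcases hz with hz | hz
      · filter_upwards [a5 z hz, b4 z hz] with w h1 h2 using by simp [h1, h2]
      · filter_upwards [a4 z hz, b5 z hz] with w h1 h2 using by simp [h1, h2])
  have i1 : IntegrableOn (fun z => V z - V₁ z) U := (hi _ hV).sub (hi _ a1)
  rw [integral_sub i1 (hi _ b1), integral_sub (hi _ hV) (hi _ a1)] at this
  rw [← a6, ← b6]
  linear_combination I * this

end Pool.Agent.H.MP_7e8329_an
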