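import Pool.Agent.H.MP_7e8329_an.B

set_option autoImplicit false
open MeasureTheory Set Metric Filter Topology Complex InnerProductSpace

namespace Pool.Agent.H.MP_7e8329_an

lemma harnack {u : ℂ → ℝ} {c w : ℂ} {R : ℝ} (hu : HarmonicOnNhd u (ball c R)) (hc : Continuous u)
    (h0 : ∀ z ∈ sphere c R, 0 ≤ u z) (hw : w ∈ ball c R) :
    (R - ‖w - c‖) / (R + ‖w - c‖) * u c ≤ u w := by
  have hR : 0 < R := pos_of_mem_ball hw
  have h1 : HarmonicContOnCl u (ball c R) := ⟨hu, hc.continuousOn⟩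
  have h2 : HarmonicContOnCl u (ball c |R|) := by rwa [abs_of_pos hR]
  rw [← h1.circleAverage_re_herglotzRieszKernel_smul hw, ← h2.circleAverage_eq, ← smul_eq_mul,
    ← Real.circleAverage_fun_smul]
  refine Real.circleAverage_mono (Continuous.continuousOn (by fun_prop)).circleIntegrable'
    (ContinuousOn.circleIntegrable' ?_) fun x hx => ?_
  · rw [abs_of_pos hR]
    have := continuousOn_herglotzRieszKernel_sphere hw
    rw [abs_of_pos hR] at this
    exact (continuous_re.comp_continuousOn this).smul hc.continuousOn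
  · rw [abs_of_pos hR] at hx
    exact mul_le_mul_of_nonneg_right (le_re_herglotzRieszKernel hx hw) (h0 x hx)

lemma posU {u : ℂ → ℝ} {U : Set ℂ} (hU : IsOpen U) (hcon : IsPreconnected U)
    (hb : Bornology.IsBounded U) (hu : HarmonicOnNhd u U) (hc : Continuous u)
    (h0 : ∀ z ∈ frontier U, 0 ≤ u z) {q : ℂ} (hq : q ∈ frontier U) (hq' : 0 < u q) :
    ∀ z ∈ U, 0 < u z := by
  obtain ⟨z₀, hz₀, hmin⟩ := hb.isCompact_closure.exists_isMinOn ⟨q, hq.1⟩ hc.continuousOn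
  by_cases h : ∃ z ∈ U, u z = u z₀
  · obtain ⟨z₁, hz₁, e₁⟩ := h
    have hop : IsOpen (U ∩ {z | u z = u z₀}) := by
      refine Metric.isOpen_iff.2 fun w hw => ?_
      obtain ⟨ε, hε, hbl⟩ := Metric.isOpen_iff.1 hU w hw.1
      refine ⟨ε / 2, by positivity, fun c hcw => ⟨hbl (ball_subset_ball (by linarith) hcw), ?_⟩⟩
      have hsub : ball c (ε / 2) ⊆ U := fun x hx => hbl (by
        have := dist_triangle x c w
        rw [mem_ball] at *
        linarith)
      have hwc : w ∈ ball c (ε / 2) := mem_ball_comm.1 hcw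
      have := harnack (u := fun z => u z - u z₀) (fun x hx => (hu x (hsub hx)).sub (harmonicAt_const _))
        (by fun_prop) (fun x hx => sub_nonneg.2 (hmin (closure_mono hsub (by
          rw [closure_ball _ (by positivity)]; exact sphere_subset_closedBall hx)))) hwc
      have e : u w = u z₀ := hw.2
      have g : 0 < (ε / 2 - ‖w - c‖) / (ε / 2 + ‖w - c‖) :=
        div_pos (sub_pos.2 (mem_ball_iff_norm.1 hwc)) (by positivity)
      have g2 : u z₀ ≤ u c := hmin (subset_closure (hsub (mem_ball_self (by positivity))))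
      rw [e, sub_self] at this
      have := nonpos_of_mul_nonpos_right this g
      exact le_antisymm (by linarith) g2
    have hall : U ⊆ U ∩ {z | u z = u z₀} := hcon.subset_of_closure_inter_subset hop ⟨z₁, hz₁, hz₁, e₁⟩
      fun z hz => ⟨hz.2, closure_minimal inter_subset_right (isClosed_eq hc continuous_const) hz.1⟩
    have : u q = u z₀ := closure_minimal (hall.trans inter_subset_right)
      (isClosed_eq hc continuous_const) hq.1
    intro z hz
    rw [(hall hz).2, ← this]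
    exact hq'
  · push Not at h
    intro z hz
    have h1 : z₀ ∉ U := fun g => h z₀ g rfl
    exact (h0 z₀ ⟨hz₀, by rwa [hU.interior_eq]⟩).trans_lt
      (lt_of_le_of_ne (hmin (subset_closure hz)) (h z hz).symm)

lemma hopf {u : ℂ → ℝ} {U : Set ℂ} (hu : HarmonicOnNhd u U) (hd : Differentiable ℝ u)
    (hp : ∀ z ∈ U, 0 < u z) {p v : ℂ} (hv : v ≠ 0) (hsub : ball (p + v) ‖v‖ ⊆ U) (h0 : u p = 0) :
    0 < fderiv ℝ u p v := by
  have hR : 0 < ‖v‖ := norm_pos_iff.2 hv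
  have hc := hd.continuous
  have hD : HasDerivAt (fun t : ℝ => u (p + t • v)) (fderiv ℝ u p v) 0 := by
    have h1 : HasDerivAt (fun t : ℝ => p + t • v) v 0 := by
      simpa using ((hasDerivAt_id (0:ℝ)).smul_const v).const_add p
    exact (hd p).hasFDerivAt.comp_hasDerivAt_of_eq 0 h1 (by simp)
  have hc0 : 0 < u (p + v) := hp _ (hsub (mem_ball_self hR))
  refine lt_of_lt_of_le (half_pos hc0) (ge_of_tendsto hD.tendsto_slope_zero_right ?_)
  filter_upwards [Ioo_mem_nhdsGT (zero_lt_one' ℝ)] with t ht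
  have e : ‖p + t • v - (p + v)‖ = (1 - t) * ‖v‖ := by
    rw [show p + t • v - (p + v) = -((1 - t) • v) by module, norm_neg, norm_smul,
      Real.norm_of_nonneg (by linarith [ht.2])]
  have hw : p + t • v ∈ ball (p + v) ‖v‖ := by
    rw [mem_ball_iff_norm, e]; nlinarith [ht.1]
  have := harnack (fun x hx => hu x (hsub hx)) hc (fun x hx => by
    refine closure_minimal (fun y hy => (hp y (hsub hy)).le) (isClosed_le continuous_const hc) ?_
    rw [closure_ball _ hR.ne']; exact sphere_subset_closedBall hx) hw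
  rw [e] at this
  have g : t / 2 ≤ (‖v‖ - (1 - t) * ‖v‖) / (‖v‖ + (1 - t) * ‖v‖) := by
    rw [le_div_iff₀ (by nlinarith [ht.2])]
    nlinarith [ht.1, mul_pos ht.1 (mul_pos ht.1 hR)]
  simp only [zero_add, zero_smul, add_zero, h0, sub_zero, smul_eq_mul]
  rw [le_inv_mul_iff₀ ht.1]
  nlinarith

lemma pre {γ : ℝ → ℂ} (H : Crv γ) {K : Set ℂ} (hK : IsClosed K) (hKd : Disjoint (range γ) K) :
    ∃ τ₀ ρ : ℝ, 0 < τ₀ ∧ 0 < ρ ∧
      (∀ s ∈ Ico (0:ℝ) 1, ∀ s' ∈ Ico (0:ℝ) 1, ∀ τ τ', |τ| ≤ τ₀ → |τ'| ≤ τ₀ → Γ γ s τ = Γ γ s' τ' →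
        s = s' ∧ τ = τ') ∧ (∀ s τ, |τ| ≤ τ₀ → 0 < Jc γ s τ) ∧
      (∀ z, infDist z (range γ) < ρ → ∃ s ∈ Ico (0:ℝ) 1, ∃ τ, |τ| < τ₀ ∧ z = Γ γ s τ) ∧
      (∀ s, ρ ≤ infDist (Γ γ s τ₀) (range γ)) ∧
      ∀ s τ, |τ| ≤ τ₀ → ball (Γ γ s τ) ‖I * τ * deriv γ s‖ ⊆ (range γ ∪ K)ᶜ := by
  obtain ⟨τ₁, h1, hD⟩ := H.disc
  obtain ⟨L, hL, hb1⟩ := Crv.bdd H.c1 H.per1
  obtain ⟨M, hM, hb2⟩ := Crv.bdd H.c2 H.per2
  obtain ⟨N, hN, hb3⟩ := Crv.bdd (H.c1.inv₀ H.reg) (fun s => by simp only [Pi.inv_apply, H.per1 s])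
  obtain ⟨δ, hδ, hth⟩ := hKd.exists_thickenings H.compact hK
  have hm : ∀ s, N⁻¹ ≤ ‖deriv γ s‖ := fun s => by
    have := hb3 s
    rw [Pi.inv_apply, norm_inv] at this
    exact inv_le_of_inv_le₀ (norm_pos_iff.2 (H.reg s)) this
  obtain ⟨τ₀, h0, t1, t2, t3⟩ : ∃ τ₀ : ℝ, 0 < τ₀ ∧ τ₀ ≤ τ₁ ∧ τ₀ ≤ N⁻¹ / (2 * M) ∧ τ₀ ≤ δ / (2 * L) :=
    ⟨min τ₁ (min (N⁻¹ / (2 * M)) (δ / (2 * L))), by positivity, min_le_left _ _,
      (min_le_right _ _).trans (min_le_left _ _), (min_le_right _ _).trans (min_le_right _ _)⟩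
  have nI : ∀ s (τ : ℝ), ‖I * τ * deriv γ s‖ = |τ| * ‖deriv γ s‖ := fun s τ => by simp
  have nI2 : ∀ s (τ : ℝ), ‖I * τ * deriv γ s‖ ^ 2 = τ ^ 2 * ‖deriv γ s‖ ^ 2 := fun s τ => by
    rw [nI, mul_pow, sq_abs]
  have hD' : ∀ s t τ : ℝ, |τ| ≤ τ₀ → ‖I * τ * deriv γ s‖ ≤ dist (Γ γ s τ) (γ t) := by
    intro s t τ hτ
    rw [dist_comm, dist_eq_norm]
    refine le_of_sq_le_sq ?_ (norm_nonneg _)
    have := hD s t τ (hτ.trans t1)
    rw [nI2, Γ]
    nlinarith [sq_nonneg ‖γ t - γ s‖]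
  refine ⟨τ₀, τ₀ * N⁻¹, h0, by positivity, ?_, ?_, ?_, ?_, ?_⟩
  · intro s hs s' hs' τ τ' hτ hτ' e
    have a1 := hD s s' τ (hτ.trans t1)
    have a2 := hD s' s τ' (hτ'.trans t1)
    unfold Γ at e
    rw [e, sub_add_cancel_left, norm_neg, nI2] at a1
    rw [← e, sub_add_cancel_left, norm_neg, nI2, norm_sub_rev] at a2
    have a3 : ‖γ s' - γ s‖ = 0 := by nlinarith [norm_nonneg (γ s' - γ s)]
    have a4 : γ s' = γ s := sub_eq_zero.1 (norm_eq_zero.1 a3)
    have a5 : s = s' := by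
      rcases lt_trichotomy s s' with g | g | g
      · exact absurd (by simpa using a4) (H.inj s (s' - s) (by linarith) (by linarith [hs.1, hs'.2]))
      · exact g
      · exact absurd (by simpa using a4.symm) (H.inj s' (s - s') (by linarith) (by linarith [hs'.1, hs.2]))
    subst a5
    refine ⟨rfl, ?_⟩
    have := mul_right_cancel₀ (H.reg s) (add_left_cancel e)
    exact_mod_cast mul_left_cancel₀ I_ne_zero this
  · intro s τ hτ
    have a1 : |τ * ((starRingEnd ℂ) (deriv (deriv γ) s) * deriv γ s).im| ≤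
        N⁻¹ / (2 * M) * (M * ‖deriv γ s‖) := by
      rw [abs_mul]
      refine mul_le_mul (hτ.trans t2) ((abs_im_le_norm _).trans ?_) (abs_nonneg _) (by positivity)
      rw [norm_mul, Complex.norm_conj]
      gcongr
      exact hb2 s
    have a2 : N⁻¹ / (2 * M) * (M * ‖deriv γ s‖) = N⁻¹ * ‖deriv γ s‖ / 2 := by field_simp
    have a3 := norm_pos_iff.2 (H.reg s)
    have := neg_abs_le (τ * ((starRingEnd ℂ) (deriv (deriv γ) s) * deriv γ s).im)
    unfold Jc
    nlinarith [hm s]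
  · intro z hz
    obtain ⟨_, ⟨t, rfl⟩, e⟩ := H.compact.exists_infDist_eq_dist (range_nonempty _) z
    obtain ⟨s, hs, e2⟩ := H.red 0 t
    rw [e2, zero_add] at e
    have hmin : IsLocalMin (fun t => normSq (γ t - z)) s := Eventually.of_forall fun t => by
      have := infDist_le_dist_of_mem (x := z) (mem_range_self (f := γ) t)
      rw [e, dist_comm, dist_comm z, dist_eq_norm, dist_eq_norm] at this
      simp only [← Complex.sq_norm]
      gcongr
    have hre : HasDerivAt (fun t => (γ t - z).re) (deriv γ s).re s :=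
      reCLM.hasFDerivAt.comp_hasDerivAt s ((H.d1 s).sub_const z)
    have him : HasDerivAt (fun t => (γ t - z).im) (deriv γ s).im s :=
      imCLM.hasFDerivAt.comp_hasDerivAt s ((H.d1 s).sub_const z)
    have e3 := hmin.hasDerivAt_eq_zero ((hre.mul hre).add (him.mul him))
    have n0 : normSq (deriv γ s) ≠ 0 := (normSq_pos.2 (H.reg s)).ne'
    have e4 : z = Γ γ s (((z - γ s) * (starRingEnd ℂ) (deriv γ s)).im / normSq (deriv γ s)) := by
      unfold Γ
      rw [← sub_eq_iff_eq_add']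
      simp only [sub_re, sub_im] at e3
      apply Complex.ext
      · simp only [mul_re, mul_im, I_re, I_im, ofReal_re, ofReal_im, conj_re, conj_im, sub_re, sub_im]
        field_simp
        rw [normSq_apply]
        linear_combination (-(deriv γ s).re / 2) * e3
      · simp only [mul_re, mul_im, I_re, I_im, ofReal_re, ofReal_im, conj_re, conj_im, sub_re, sub_im]
        field_simp
        rw [normSq_apply]
        linear_combination (-(deriv γ s).im / 2) * e3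
    obtain ⟨τ, hτ⟩ : ∃ τ : ℝ, z = Γ γ s τ := ⟨_, e4⟩
    refine ⟨s, hs, τ, ?_, hτ⟩
    rw [e, hτ, dist_eq_norm, Γ, add_sub_cancel_left, nI] at hz
    by_contra g
    push Not at g
    have : τ₀ * N⁻¹ ≤ |τ| * ‖deriv γ s‖ := mul_le_mul g (hm s) (by positivity) (abs_nonneg _)
    linarith
  · intro s
    refine (le_infDist (range_nonempty _)).2 ?_
    rintro _ ⟨t, rfl⟩
    refine le_trans ?_ (hD' s t τ₀ (abs_of_pos h0).le)
    rw [nI, abs_of_pos h0]
    gcongr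
    exact hm s
  · rintro s τ hτ z hz (⟨t, rfl⟩ | hz')
    · exact absurd (mem_ball_comm.1 hz) (not_lt.2 (hD' s t τ hτ))
    · refine disjoint_left.1 hth (mem_thickening_iff.2 ⟨γ s, mem_range_self _, ?_⟩)
        (self_subset_thickening hδ _ hz')
      have a1 := dist_triangle z (Γ γ s τ) (γ s)
      have a2 : dist (Γ γ s τ) (γ s) = ‖I * τ * deriv γ s‖ := by
        rw [dist_eq_norm, Γ, add_sub_cancel_left]
      have a3 : ‖I * τ * deriv γ s‖ ≤ δ / (2 * L) * L := by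
        rw [nI]
        exact mul_le_mul (hτ.trans t3) (hb1 s) (norm_nonneg _) (by positivity)
      have a4 : δ / (2 * L) * L = δ / 2 := by field_simp
      rw [mem_ball] at hz
      linarith

lemma side {γ : ℝ → ℂ} (H : Crv γ) {K U : Set ℂ} (hK : IsClosed K) (hKd : Disjoint (range γ) K)
    (hU : IsOpen U) (hfr : frontier U = range γ ∪ K) {u : ℂ → ℝ} (hu : HarmonicOnNhd u U)
    (hd : Differentiable ℝ u) (hp : ∀ z ∈ U, 0 < u z) (h0 : ∀ s, u (γ s) = 0) :
    ((∃ τ₀ ρ, Col γ U τ₀ ρ) ∧ ∀ s, 0 < fderiv ℝ u (γ s) (I * deriv γ s)) ∨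
      ∀ s, fderiv ℝ u (γ s) (I * deriv γ s) < 0 := by
  obtain ⟨τ₀, ρ, p1, p2, inj, jac, near, far, hball⟩ := pre H hK hKd
  rw [← hfr] at hball
  have c0 := H.c0
  have c1 := H.c1
  have cov : (frontier U)ᶜ ⊆ U ∪ (closure U)ᶜ := fun z hz => by
    by_cases h : z ∈ closure U
    · left
      by_contra g
      exact hz ⟨h, by rwa [hU.interior_eq]⟩
    · exact Or.inr h
  have dis : Disjoint U (closure U)ᶜ := disjoint_compl_right.mono_left subset_closure
  have nz : ∀ s (τ : ℝ), τ ≠ 0 → I * τ * deriv γ s ≠ 0 := fun s τ h =>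
    mul_ne_zero (mul_ne_zero I_ne_zero (ofReal_ne_zero.2 h)) (H.reg s)
  have hS : ∀ T : Set ℝ, IsPreconnected T → (∀ τ ∈ T, |τ| ≤ τ₀ ∧ τ ≠ 0) →
      (∀ s, ∀ τ ∈ T, Γ γ s τ ∈ U) ∨ ∀ s, ∀ τ ∈ T, Γ γ s τ ∉ closure U := by
    intro T hT h
    have := ((isPreconnected_univ.prod hT).image (fun p : ℝ × ℝ => Γ γ p.1 p.2)
      (Continuous.continuousOn (by unfold Γ; fun_prop))).subset_or_subset hU
      isClosed_closure.isOpen_compl dis (by
        rintro _ ⟨p, hp, rfl⟩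
        exact cov (hball _ _ (h _ hp.2).1 (mem_ball_self (norm_pos_iff.2 (nz _ _ (h _ hp.2).2)))))
    exact this.imp (fun g s τ hτ => g ⟨(s, τ), ⟨trivial, hτ⟩, rfl⟩)
      (fun g s τ hτ => g ⟨(s, τ), ⟨trivial, hτ⟩, rfl⟩)
  have hH : ∀ s (τ : ℝ), |τ| ≤ τ₀ → τ ≠ 0 → Γ γ s τ ∈ U → 0 < τ * fderiv ℝ u (γ s) (I * deriv γ s) := by
    intro s τ h1 h2 h3
    have := hopf hu hd hp (nz s τ h2) ((convex_ball _ _).isPreconnected.subset_left_of_subset_union hU
      isClosed_closure.isOpen_compl dis ((hball s τ h1).trans cov)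
      ⟨_, mem_ball_self (norm_pos_iff.2 (nz s τ h2)), h3⟩) (h0 s)
    rwa [show I * τ * deriv γ s = τ • (I * deriv γ s) by simp; ring, map_smul, smul_eq_mul] at this
  have hz : ∀ s, Γ γ s 0 ∉ U := fun s h => by
    have : γ s ∈ U ∩ frontier U := ⟨by simpa [Γ] using h, hfr ▸ Or.inl (mem_range_self s)⟩
    rw [hU.inter_frontier_eq] at this
    exact this
  rcases hS (Ico (-τ₀) 0) isPreconnected_Ico
    (fun τ h => ⟨abs_le.2 ⟨h.1, by linarith [h.2]⟩, h.2.ne⟩) with hm | hm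
  · right
    intro s
    have := hH s (-τ₀) (by rw [abs_neg, abs_of_pos p1]) (by linarith) (hm s _ ⟨le_rfl, by linarith⟩)
    nlinarith
  have out : ∀ s τ, -τ₀ ≤ τ → τ ≤ 0 → Γ γ s τ ∉ U := fun s τ h1 h2 => by
    rcases h2.eq_or_lt with rfl | h
    · exact hz s
    · exact fun g => hm s τ ⟨h1, h⟩ (subset_closure g)
  left
  rcases hS (Ioc 0 τ₀) isPreconnected_Ioc
    (fun τ h => ⟨abs_le.2 ⟨by linarith [h.1], h.2⟩, h.1.ne'⟩) with hq | hq
  · refine ⟨⟨τ₀, ρ, p1, p2, inj, jac, fun s τ h1 h2 => hq s τ ⟨h1, h2⟩, out, near, far⟩, fun s => ?_⟩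
    exact (mul_pos_iff_of_pos_left p1).1 (hH s τ₀ (abs_of_pos p1).le p1.ne' (hq s _ ⟨p1, le_rfl⟩))
  · exfalso
    have : γ 0 ∈ closure U := frontier_subset_closure (hfr ▸ Or.inl (mem_range_self 0))
    obtain ⟨z, hz1, hz2⟩ := Metric.mem_closure_iff.1 this ρ p2
    obtain ⟨s, -, τ, hτ, rfl⟩ := near z
      ((infDist_le_dist_of_mem (mem_range_self 0)).trans_lt (by rwa [dist_comm]))
    rcases le_or_gt τ 0 with g | g
    · exact out s τ (abs_lt.1 hτ).1.le g hz1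
    · exact hq s τ ⟨g, (abs_lt.1 hτ).2.le⟩ (subset_closure hz1)

lemma side' {γ : ℝ → ℂ} (H : Crv γ) {K U : Set ℂ} (hK : IsClosed K) (hKd : Disjoint (range γ) K)
    (hU : IsOpen U) (hfr : frontier U = range γ ∪ K) {u : ℂ → ℝ} (hu : HarmonicOnNhd u U)
    (hd : Differentiable ℝ u) (hp : ∀ z ∈ U, 0 < u z) (h0 : ∀ s, u (γ s) = 0) :
    ∃ β : ℝ → ℂ, Crv β ∧ range β = range γ ∧ (∃ τ₀ ρ, Col β U τ₀ ρ) ∧
      ∀ s, 0 < fderiv ℝ u (β s) (I * deriv β s) := by
  rcases side H hK hKd hU hfr hu hd hp h0 with h | h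
  · exact ⟨γ, H, rfl, h⟩
  have hr : range (fun t => γ (-t)) = range γ := neg_surjective.range_comp γ
  rcases side H.rev hK (hr ▸ hKd) hU (hr ▸ hfr) hu hd hp (fun s => h0 _) with h' | h'
  · exact ⟨_, H.rev, hr, h'⟩
  have a1 := h (-0)
  have a2 := h' 0
  rw [deriv_comp_neg, mul_neg, map_neg] at a2
  linarith

end Pool.Agent.H.MP_7e8329_an
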