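import Pool.Agent.H.MP_7e8329_an.A

set_option autoImplicit false
open MeasureTheory Set Metric Filter Topology Complex

namespace Pool.Agent.H.MP_7e8329_an

lemma hloc {γ : ℝ → ℂ} (H : Crv γ) {θ : ℝ} (h0 : 0 ≤ θ) (h1 : θ < 1) (t₀ : ℝ) :
    ∃ V : Set ℝ, IsOpen V ∧ t₀ ∈ V ∧ ∀ A, MeasurableSet A → A ⊆ V →
      ENNReal.ofReal θ * ∫⁻ s in A, ENNReal.ofReal ‖deriv γ s‖ ≤ Measure.hausdorffMeasure 1 (γ '' A) := by
  have c1 := H.c1
  have n0 : 0 < ‖deriv γ t₀‖ := norm_pos_iff.2 (H.reg t₀)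
  obtain ⟨u, hu⟩ : ∃ u : ℂ, u = (starRingEnd ℂ) (deriv γ t₀) / ‖deriv γ t₀‖ := ⟨_, rfl⟩
  have hu1 : ‖u‖ = 1 := by rw [hu]; simp [n0.ne']
  have hu2 : (u * deriv γ t₀).re = ‖deriv γ t₀‖ := by
    rw [hu, div_mul_eq_mul_div, conj_mul', div_ofReal_re, ← ofReal_pow, ofReal_re]
    field_simp
  have hop : IsOpen {t | θ * ‖deriv γ t‖ < (u * deriv γ t).re} := isOpen_lt (by fun_prop) (by fun_prop)
  obtain ⟨ε, hε, hb⟩ := Metric.isOpen_iff.1 hop t₀ (by
    rw [mem_ofPred_eq, hu2]; nlinarith)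
  refine ⟨ball t₀ ε, isOpen_ball, mem_ball_self hε, fun A hA hAV => ?_⟩
  have hd : ∀ t, HasDerivAt (fun t => (u * γ t).re) (u * deriv γ t).re t := fun t =>
    reCLM.hasFDerivAt.comp_hasDerivAt t ((H.d1 t).const_mul u)
  have hpos : ∀ t ∈ ball t₀ ε, 0 < (u * deriv γ t).re := fun t ht =>
    lt_of_le_of_lt (by positivity) (hb ht)
  have hmono : StrictMonoOn (fun t => (u * γ t).re) (ball t₀ ε) :=
    strictMonoOn_of_deriv_pos (convex_ball _ _) (fun t _ => (hd t).continuousAt.continuousWithinAt)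
      fun t ht => by rw [(hd t).deriv]; exact hpos t (interior_subset ht)
  have e := lintegral_image_eq_lintegral_abs_deriv_mul hA (fun t _ => (hd t).hasDerivWithinAt)
    (hmono.injOn.mono hAV) (fun _ => 1)
  have hl : LipschitzWith 1 (fun z : ℂ => (u * z).re) := LipschitzWith.of_dist_le_mul fun x y => by
    rw [Real.dist_eq, ← sub_re, ← mul_sub, dist_eq_norm]
    refine (abs_re_le_norm _).trans ?_
    simp [hu1]
  have e2 := hl.hausdorffMeasure_image_le zero_le_one (γ '' A)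
  rw [hausdorffMeasure_real, image_image] at e2
  simp only [lintegral_const, MeasurableSet.univ, Measure.restrict_apply, univ_inter, one_mul,
    mul_one] at e
  simp only [ENNReal.coe_one, ENNReal.rpow_one, one_mul] at e2
  refine le_trans ?_ (e.symm.le.trans e2)
  rw [← lintegral_const_mul' _ _ ENNReal.ofReal_ne_top]
  refine setLIntegral_mono' hA fun t ht => ?_
  rw [← ENNReal.ofReal_mul h0]
  exact ENNReal.ofReal_le_ofReal ((hb (hAV ht)).le.trans (le_abs_self _))

lemma hkey {γ : ℝ → ℂ} (H : Crv γ) (A : Set ℝ) (hA : MeasurableSet A) (hA1 : A ⊆ Ico 0 1) :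
    ∫⁻ s in A, ENNReal.ofReal ‖deriv γ s‖ ≤ Measure.hausdorffMeasure 1 (γ '' A) := by
  have hinj : InjOn γ (Ico 0 1) := fun s hs s' hs' e => by
    rcases lt_trichotomy s s' with g | g | g
    · exact absurd (by simpa using e.symm) (H.inj s (s' - s) (by linarith) (by linarith [hs.1, hs'.2]))
    · exact g
    · exact absurd (by simpa using e) (H.inj s' (s - s') (by linarith) (by linarith [hs'.1, hs.2]))
  refine ENNReal.le_of_forall_lt_one_mul_le fun a ha => ?_
  obtain ⟨θ, h0, rfl⟩ : ∃ θ : ℝ, 0 ≤ θ ∧ a = ENNReal.ofReal θ :=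
    ⟨a.toReal, ENNReal.toReal_nonneg, (ENNReal.ofReal_toReal ha.ne_top).symm⟩
  have h1 : θ < 1 := ENNReal.ofReal_lt_one.1 ha
  have : ∃ V : Set ℝ, IsOpen V ∧ Icc (0:ℝ) 1 ⊆ V ∧ ∀ A, MeasurableSet A → A ⊆ Ico 0 1 → A ⊆ V →
      ENNReal.ofReal θ * ∫⁻ s in A, ENNReal.ofReal ‖deriv γ s‖ ≤ Measure.hausdorffMeasure 1 (γ '' A) := by
    refine IsCompact.induction_on (p := fun S => ∃ V : Set ℝ, IsOpen V ∧ S ⊆ V ∧ ∀ A, MeasurableSet A →
      A ⊆ Ico 0 1 → A ⊆ V → ENNReal.ofReal θ * ∫⁻ s in A, ENNReal.ofReal ‖deriv γ s‖ ≤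
        Measure.hausdorffMeasure 1 (γ '' A)) isCompact_Icc ?_ ?_ ?_ ?_
    · exact ⟨∅, isOpen_empty, Subset.rfl, fun A _ _ h => by simp [subset_empty_iff.1 h]⟩
    · rintro s t hst ⟨V, h1, h2, h3⟩
      exact ⟨V, h1, hst.trans h2, h3⟩
    · rintro s t ⟨V, h1, h2, h3⟩ ⟨V', g1, g2, g3⟩
      refine ⟨V ∪ V', h1.union g1, union_subset_union h2 g2, fun A hA hA1 hAV => ?_⟩
      have m1 := hA.inter h1.measurableSet
      have m2 := hA.diff h1.measurableSet
      rw [← lintegral_inter_add_sdiff _ _ h1.measurableSet, mul_add]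
      have e : γ '' A = γ '' (A ∩ V) ∪ γ '' (A \ V) := by rw [← image_union, inter_union_sdiff]
      rw [e, measure_union ?_ (m2.image_of_continuousOn_injOn H.c0.continuousOn
        (hinj.mono (sdiff_subset.trans hA1)))]
      · exact add_le_add (h3 _ m1 (inter_subset_left.trans hA1) inter_subset_right)
          (g3 _ m2 (sdiff_subset.trans hA1) fun x hx => (hAV hx.1).resolve_left hx.2)
      · refine disjoint_left.2 ?_
        rintro _ ⟨x, hx, rfl⟩ ⟨y, hy, e⟩
        exact hy.2 (hinj (hA1 hy.1) (hA1 hx.1) e ▸ hx.2)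
    · intro x _
      obtain ⟨V, h1, h2, h3⟩ := hloc H h0 h1 x
      exact ⟨V, mem_nhdsWithin_of_mem_nhds (h1.mem_nhds h2), V, h1, Subset.rfl, fun A a _ c => h3 A a c⟩
  obtain ⟨V, -, h2, h3⟩ := this
  exact h3 A hA hA1 (hA1.trans (Ico_subset_Icc_self.trans h2))

lemma haus {γ : ℝ → ℂ} (H : Crv γ) (f : ℂ → ℝ) (hf : Continuous f) (f0 : ∀ z, 0 ≤ f z) :
    IntegrableOn f (range γ) (Measure.hausdorffMeasure 1) ∧
      ∫ s in (0:ℝ)..1, ‖deriv γ s‖ * f (γ s) ≤ ∫ z in range γ, f z ∂(Measure.hausdorffMeasure 1) := by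
  have c0 := H.c0
  have c1 := H.c1
  have hm : MeasurableSet (range γ) := H.compact.isClosed.measurableSet
  have hi : IntegrableOn f (range γ) (Measure.hausdorffMeasure 1) := by
    obtain ⟨L, hL, hb⟩ := Crv.bdd H.c1 H.per1
    have hl : LipschitzWith ⟨L, hL.le⟩ γ :=
      lipschitzWith_of_nnnorm_deriv_le (fun t => (H.d1 t).differentiableAt) fun t => hb t
    have h1 := hl.hausdorffMeasure_image_le zero_le_one (Icc 0 (0 + 1))
    rw [H.per.image_Icc one_pos, hausdorffMeasure_real] at h1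
    obtain ⟨M, hM⟩ := H.compact.exists_bound_of_continuousOn hf.continuousOn
    refine Measure.integrableOn_of_bounded (M := M) (ne_top_of_le_ne_top ?_ h1) hf.aestronglyMeasurable
      ((ae_restrict_mem hm).mono hM)
    exact ENNReal.mul_ne_top (by simp) (by simp)
  refine ⟨hi, ?_⟩
  have hle : Measure.map γ ((volume.restrict (Ico (0:ℝ) 1)).withDensity
      fun s => ENNReal.ofReal ‖deriv γ s‖) ≤ (Measure.hausdorffMeasure 1).restrict (range γ) := by
    refine Measure.le_iff.2 fun s hs => ?_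
    have ms := hs.preimage c0.measurable
    rw [Measure.map_apply c0.measurable hs, withDensity_apply _ ms, Measure.restrict_restrict ms,
      Measure.restrict_apply hs]
    refine (hkey H _ (ms.inter measurableSet_Ico) inter_subset_right).trans (measure_mono ?_)
    rintro _ ⟨x, hx, rfl⟩
    exact ⟨hx.1, mem_range_self _⟩
  refine le_trans (le_of_eq ?_) (integral_mono_measure hle (Eventually.of_forall f0) hi)
  rw [integral_map c0.aemeasurable hf.aestronglyMeasurable,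
    integral_withDensity_eq_integral_toReal_smul (by fun_prop) (by simp),
    intervalIntegral.integral_of_le zero_le_one, integral_Ico_eq_integral_Ioc]
  simp

end Pool.Agent.H.MP_7e8329_an
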