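import Pool.Agent.H.MP_7e8329_an.C

set_option autoImplicit false
open MeasureTheory Set Metric Filter Topology Complex InnerProductSpace

namespace Pool.Agent.H.MP_7e8329_an

def DB (W : ℂ → ℂ) (z V : ℂ) : Prop := ∃ L : ℂ →L[ℝ] ℂ, HasFDerivAt W L z ∧ L 1 + I * L I = V

lemma DB.mul {A B : ℂ → ℂ} {z a b : ℂ} (hA : DB A z a) (hB : DB B z b) :
    DB (fun w => A w * B w) z (a * B z + A z * b) := by
  obtain ⟨L, h1, rfl⟩ := hA
  obtain ⟨M, h2, rfl⟩ := hB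
  exact ⟨_, h1.mul h2, by simp; ring⟩

lemma DB.add {A B : ℂ → ℂ} {z a b : ℂ} (hA : DB A z a) (hB : DB B z b) :
    DB (fun w => A w + B w) z (a + b) := by
  obtain ⟨L, h1, rfl⟩ := hA
  obtain ⟨M, h2, rfl⟩ := hB
  exact ⟨_, h1.add h2, by simp; ring⟩

lemma DB.const (c z : ℂ) : DB (fun _ => c) z 0 := ⟨0, hasFDerivAt_const _ _, by simp⟩

lemma DB.hol {g : ℂ → ℂ} {z g' : ℂ} (h : HasDerivAt g g' z) : DB g z 0 :=
  ⟨_, h.hasFDerivAt.restrictScalars ℝ, by simp; linear_combination g' * I_mul_I⟩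

lemma DB.anti {g : ℂ → ℂ} {z g' : ℂ} (h : HasDerivAt g g' z) :
    DB (fun w => (starRingEnd ℂ) (g w)) z (2 * (starRingEnd ℂ) g') :=
  ⟨_, (conjCLE : ℂ →L[ℝ] ℂ).hasFDerivAt.comp z (h.hasFDerivAt.restrictScalars ℝ), by
    simp; linear_combination (-(starRingEnd ℂ) g') * I_mul_I⟩

lemma DB.comp {r : ℂ → ℝ} {F : ℝ → ℝ} {F' : ℝ} {z V : ℂ} (hF : HasDerivAt F F' (r z))
    (h : DB (fun w => (r w : ℂ)) z V) : DB (fun w => (F (r w) : ℂ)) z (F' * V) := by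
  obtain ⟨L, h1, rfl⟩ := h
  have h2 : HasFDerivAt r (reCLM.comp L) z := reCLM.hasFDerivAt.comp z h1
  have h3 : ofRealCLM.comp (reCLM.comp L) = L := (ofRealCLM.hasFDerivAt.comp z h2).unique h1
  have h4 : ∀ v, ((L v).re : ℂ) = L v := fun v => congrArg (fun M : ℂ →L[ℝ] ℂ => M v) h3
  refine ⟨_, ofRealCLM.hasFDerivAt.comp z (hF.comp_hasFDerivAt z h2), ?_⟩
  simp [h4]
  ring

lemma DB.congr {A : ℂ → ℂ} {z a b : ℂ} (hA : DB A z a) (h : a = b) : DB A z b := h ▸ hA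

structure Dat (γ₁ γ₂ : ℝ → ℂ) (U : Set ℂ) (ψ : ℂ → ℝ) (g g1 : ℂ → ℂ) (c₁ c₂ : ℝ) : Prop where
  H₁ : Crv γ₁
  H₂ : Crv γ₂
  hU : IsOpen U
  hb : Bornology.IsBounded U
  C₁ : ∃ τ ρ, Col γ₁ U τ ρ
  C₂ : ∃ τ ρ, Col γ₂ U τ ρ
  dis : Disjoint (range γ₁) (range γ₂)
  fr : frontier U = range γ₁ ∪ range γ₂
  cψ : Continuous ψ
  cg : Continuous g
  cg1 : Continuous g1
  dψ : ∀ z, DB (fun w => (ψ w : ℂ)) z ((starRingEnd ℂ) (g z))
  dg : ∀ z ∈ U, HasDerivAt g (g1 z) z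
  dg1 : ∀ z ∈ U, DifferentiableAt ℂ g1 z
  b₁ : ∀ s, ψ (γ₁ s) = c₁
  b₂ : ∀ s, ψ (γ₂ s) = c₂

noncomputable def Fl (γ : ℝ → ℂ) (g : ℂ → ℂ) : ℝ := ∫ s in (0:ℝ)..1, (g (γ s) * deriv γ s).im
noncomputable def Al (γ : ℝ → ℂ) (g : ℂ → ℂ) (δ : ℝ) : ℝ :=
  ∫ s in (0:ℝ)..1, Real.log (normSq (g (γ s)) + δ) * (g (γ s) * deriv γ s).im
noncomputable def Bl (γ : ℝ → ℂ) (g g1 : ℂ → ℂ) (δ : ℝ) : ℝ :=
  ∫ s in (0:ℝ)..1, (normSq (g (γ s)) + δ)⁻¹ * (g1 (γ s) * (starRingEnd ℂ) (g (γ s)) * deriv γ s).im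

lemma bdry {γ : ℝ → ℂ} (H : Crv γ) {g g1 : ℂ → ℂ} (cg : Continuous g) (cg1 : Continuous g1)
    {δ : ℝ} (hδ : 0 < δ) (a b c : ℝ) :
    (∫ s in (0:ℝ)..1, ((a + b * (Real.log (normSq (g (γ s)) + δ) : ℂ)) * g (γ s) +
      (-2 * c) * (g1 (γ s) * (starRingEnd ℂ) (g (γ s)) * ((normSq (g (γ s)) + δ)⁻¹ : ℝ))) * deriv γ s).im
      = a * Fl γ g + b * Al γ g δ - 2 * c * Bl γ g g1 δ := by
  have c0 := H.c0
  have c1 := H.c1
  have n0 : ∀ s, normSq (g (γ s)) + δ ≠ 0 := fun s => (add_pos_of_nonneg_of_pos (normSq_nonneg _) hδ).ne'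
  have cn : Continuous fun s => normSq (g (γ s)) + δ := by fun_prop
  have cl := cn.log n0
  have ci : Continuous fun s => (normSq (g (γ s)) + δ)⁻¹ := cn.inv₀ n0
  have cc : Continuous fun s => (starRingEnd ℂ) (g (γ s)) := continuous_conj.comp (by fun_prop)
  rw [← imCLM_apply, ← imCLM.intervalIntegral_comp_comm (Continuous.intervalIntegrable (by fun_prop) _ _),
    Fl, Al, Bl, ← intervalIntegral.integral_const_mul, ← intervalIntegral.integral_const_mul,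
    ← intervalIntegral.integral_const_mul, ← intervalIntegral.integral_add
      (Continuous.intervalIntegrable (by fun_prop) _ _) (Continuous.intervalIntegrable (by fun_prop) _ _),
    ← intervalIntegral.integral_sub
      (Continuous.intervalIntegrable (by fun_prop) _ _) (Continuous.intervalIntegrable (by fun_prop) _ _)]
  congr 1
  funext s
  generalize Real.log _ = l
  generalize (normSq _ + δ)⁻¹ = k
  simp
  ring

lemma ident {γ₁ γ₂ : ℝ → ℂ} {U : Set ℂ} {ψ : ℂ → ℝ} {g g1 : ℂ → ℂ} {c₁ c₂ : ℝ}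
    (D : Dat γ₁ γ₂ U ψ g g1 c₁ c₂) {δ : ℝ} (hδ : 0 < δ) (h h' η η' η'' : ℝ → ℝ)
    (dh : ∀ t, HasDerivAt h (h' t) t) (dη : ∀ t, HasDerivAt η (η' t) t)
    (dη' : ∀ t, HasDerivAt η' (η'' t) t) (ch' : Continuous h') (cη'' : Continuous η'') :
    ∫ z in U, (h' (ψ z) * normSq (g z) + η'' (ψ z) * normSq (g z) * Real.log (normSq (g z) + δ)
      - 4 * η (ψ z) * δ * normSq (g1 z) * ((normSq (g z) + δ)⁻¹) ^ 2) =
      (h c₁ * Fl γ₁ g + η' c₁ * Al γ₁ g δ - 2 * η c₁ * Bl γ₁ g g1 δ) +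
      (h c₂ * Fl γ₂ g + η' c₂ * Al γ₂ g δ - 2 * η c₂ * Bl γ₂ g g1 δ) := by
  obtain ⟨τ₁, ρ₁, C₁⟩ := D.C₁
  obtain ⟨τ₂, ρ₂, C₂⟩ := D.C₂
  have ch : Continuous h := continuous_iff_continuousAt.2 fun t => (dh t).continuousAt
  have cη : Continuous η := continuous_iff_continuousAt.2 fun t => (dη t).continuousAt
  have cη' : Continuous η' := continuous_iff_continuousAt.2 fun t => (dη' t).continuousAt
  have cψ := D.cψ
  have cg := D.cg
  have cg1 := D.cg1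
  have n0 : ∀ z, normSq (g z) + δ ≠ 0 := fun z => (add_pos_of_nonneg_of_pos (normSq_nonneg _) hδ).ne'
  have cn : Continuous fun z => normSq (g z) + δ := by fun_prop
  have cl := cn.log n0
  have ci : Continuous fun z => (normSq (g z) + δ)⁻¹ := cn.inv₀ n0
  have cc : Continuous fun z => (starRingEnd ℂ) (g z) := continuous_conj.comp cg
  have cc1 : Continuous fun z => (starRingEnd ℂ) (g1 z) := continuous_conj.comp cg1
  obtain ⟨V, hV⟩ : ∃ V : ℂ → ℂ, V = fun z =>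
      ((h' (ψ z) * normSq (g z) + η'' (ψ z) * normSq (g z) * Real.log (normSq (g z) + δ)
      - 4 * η (ψ z) * δ * normSq (g1 z) * ((normSq (g z) + δ)⁻¹) ^ 2 : ℝ) : ℂ) +
      2 * η' (ψ z) * ((normSq (g z) + δ)⁻¹ : ℝ) * (g z ^ 2 * (starRingEnd ℂ) (g1 z) -
        (starRingEnd ℂ) (g z) ^ 2 * g1 z) := ⟨_, rfl⟩
  have cV : Continuous V := by rw [hV]; fun_prop
  have key : ∀ z ∈ U, DB (fun z => (h (ψ z) + η' (ψ z) * (Real.log (normSq (g z) + δ) : ℂ)) * g z +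
      (-2 * η (ψ z)) * (g1 z * (starRingEnd ℂ) (g z) * ((normSq (g z) + δ)⁻¹ : ℝ))) z (V z) := by
    intro z hz
    have a0 := DB.anti (D.dg z hz)
    have a1 : DB (fun w => ((normSq (g w) + δ : ℝ) : ℂ)) z (2 * g z * (starRingEnd ℂ) (g1 z)) := by
      have := ((DB.hol (D.dg z hz)).mul a0).add (DB.const δ z)
      simp only [mul_conj, ← ofReal_add] at this
      exact this.congr (by ring)
    have a2 := DB.comp (Real.hasDerivAt_log (n0 z)) a1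
    have a3 := DB.comp (hasDerivAt_inv (n0 z)) a1
    refine ((((DB.comp (dh _) (D.dψ z)).add ((DB.comp (dη' _) (D.dψ z)).mul a2)).mul
      (DB.hol (D.dg z hz))).add (((DB.const (-2) z).mul (DB.comp (dη _) (D.dψ z))).mul
      (((DB.hol (D.dg1 z hz).hasDerivAt).mul a0).mul a3))).congr ?_
    rw [hV]
    beta_reduce
    have n1 : ((normSq (g z) : ℂ) + δ) * ((normSq (g z) + δ)⁻¹ : ℝ) = 1 := by
      exact_mod_cast mul_inv_cancel₀ (n0 z)
    rw [← inv_pow]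
    generalize Real.log _ = l
    generalize (normSq (g z) + δ)⁻¹ = k at *
    push_cast
    rw [← mul_conj (g z), ← mul_conj (g1 z)] at *
    linear_combination (4 * (η (ψ z) : ℂ) * g1 z * (starRingEnd ℂ) (g1 z) * k) * n1
  have G := green D.H₁ D.H₂ D.hU D.hb C₁ C₂ D.dis D.fr
    (fun z => (h (ψ z) + η' (ψ z) * (Real.log (normSq (g z) + δ) : ℂ)) * g z +
      (-2 * η (ψ z)) * (g1 z * (starRingEnd ℂ) (g z) * ((normSq (g z) + δ)⁻¹ : ℝ))) V (by fun_prop) cV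
    (fun z hz => by obtain ⟨L, h1, -⟩ := key z hz; exact h1.differentiableAt)
    (fun z hz => by obtain ⟨L, h1, h2⟩ := key z hz; rw [h1.fderiv, h2])
  have G2 := congrArg Complex.im G
  simp only [D.b₁, D.b₂] at G2
  rw [add_im, bdry D.H₁ cg cg1 hδ, bdry D.H₂ cg cg1 hδ] at G2
  rw [← G2, I_mul_im, ← reCLM_apply, ← reCLM.integral_comp_comm
    ((cV.continuousOn.integrableOn_compact D.hb.isCompact_closure).mono_set subset_closure)]
  congr 1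
  funext z
  rw [hV, reCLM_apply, add_re, ofReal_re]
  generalize (normSq _ + δ)⁻¹ = k
  simp [pow_two]
  ring_nf
  simp

end Pool.Agent.H.MP_7e8329_an
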