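import Pool.Agent.H.MP_7e8329_an.E

set_option autoImplicit false
open MeasureTheory Set Metric Filter Topology Complex InnerProductSpace

namespace Pool.Agent.H.MP_7e8329_an

lemma lim0 {f : ℝ → ℝ} (hf : Continuous f) {a : ℝ} (h : ∀ δ, 0 < δ → f δ ≤ a) : f 0 ≤ a :=
  le_of_tendsto (hf.continuousAt.tendsto.mono_left (nhdsWithin_le_nhds (s := Ioi 0)))
    (eventually_nhdsWithin_of_forall h)

lemma Al_cont {γ : ℝ → ℂ} (H : Crv γ) {g : ℂ → ℂ} (cg : Continuous g) (h : ∀ s, g (γ s) ≠ 0) :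
    Continuous fun δ : ℝ => Al γ g (δ ^ 2) := by
  have c0 := H.c0
  have c1 := H.c1
  have cn : Continuous fun p : ℝ × ℝ => normSq (g (γ p.2)) + p.1 ^ 2 := by fun_prop
  have cl := cn.log fun p => (add_pos_of_pos_of_nonneg (normSq_pos.2 (h _)) (sq_nonneg _)).ne'
  exact intervalIntegral.continuous_parametric_intervalIntegral_of_continuous'
    (cl.mul (by fun_prop)) _ _

lemma Bl_cont {γ : ℝ → ℂ} (H : Crv γ) {g g1 : ℂ → ℂ} (cg : Continuous g) (cg1 : Continuous g1)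
    (h : ∀ s, g (γ s) ≠ 0) : Continuous fun δ : ℝ => Bl γ g g1 (δ ^ 2) := by
  have c0 := H.c0
  have c1 := H.c1
  have cn : Continuous fun p : ℝ × ℝ => normSq (g (γ p.2)) + p.1 ^ 2 := by fun_prop
  have cl := cn.inv₀ fun p => (add_pos_of_pos_of_nonneg (normSq_pos.2 (h _)) (sq_nonneg _)).ne'
  have cc : Continuous fun p : ℝ × ℝ => (starRingEnd ℂ) (g (γ p.2)) := continuous_conj.comp (by fun_prop)
  exact intervalIntegral.continuous_parametric_intervalIntegral_of_continuous'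
    (cl.mul (by fun_prop)) _ _

lemma jens {γ : ℝ → ℂ} (H : Crv γ) {g : ℂ → ℂ} (cg : Continuous g) (h : ∀ s, g (γ s) ≠ 0) (σ : ℝ)
    (hσ : ∀ s, σ * (g (γ s) * deriv γ s).im = ‖g (γ s)‖ * ‖deriv γ s‖) (M : ℝ)
    (hM : Al γ g 0 = M * Fl γ g) :
    σ * Fl γ g * Real.exp (M / 2) ≤ ∫ s in (0:ℝ)..1, ‖deriv γ s‖ * normSq (g (γ s)) := by
  have c0 := H.c0
  have c1 := H.c1
  have cn : Continuous fun s => normSq (g (γ s)) + 0 := by fun_prop
  have cl := cn.log fun p => (add_pos_of_pos_of_nonneg (normSq_pos.2 (h _)) le_rfl).ne'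
  have e : σ * Fl γ g * Real.exp (M / 2) = ∫ s in (0:ℝ)..1,
      (σ * Real.exp (M / 2) * (1 - M / 2) * (g (γ s) * deriv γ s).im + σ * Real.exp (M / 2) / 2 *
        (Real.log (normSq (g (γ s)) + 0) * (g (γ s) * deriv γ s).im)) := by
    rw [intervalIntegral.integral_add (Continuous.intervalIntegrable (by fun_prop) _ _)
      (Continuous.intervalIntegrable (by fun_prop) _ _), intervalIntegral.integral_const_mul,
      intervalIntegral.integral_const_mul, ← Al, ← Fl, hM]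
    ring
  rw [e]
  refine intervalIntegral.integral_mono_on zero_le_one (Continuous.intervalIntegrable (by fun_prop) _ _)
    (Continuous.intervalIntegrable (by fun_prop) _ _) fun s _ => ?_
  have n0 : 0 < ‖g (γ s)‖ := norm_pos_iff.2 (h s)
  have a1 := Real.add_one_le_exp (Real.log ‖g (γ s)‖ - M / 2)
  rw [Real.exp_sub, Real.exp_log n0, le_div_iff₀ (Real.exp_pos _)] at a1
  rw [add_zero, ← Complex.sq_norm, Real.log_pow]
  have a2 := mul_le_mul_of_nonneg_left a1 (mul_nonneg n0.le (norm_nonneg (deriv γ s)))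
  calc _ = σ * (g (γ s) * deriv γ s).im * ((Real.log ‖g (γ s)‖ - M / 2 + 1) * Real.exp (M / 2)) := by
        push_cast; ring
    _ ≤ _ := by rw [hσ]; nlinarith

lemma fin {Φ T k x y A N : ℝ} (hΦ : 0 < Φ) (hT : 0 < T) (hk : 4 * Real.pi ≤ k * Φ) (hx : 0 < x)
    (hy : y = x * Real.exp (k * T / 2)) (hA : Φ * (y ^ 2 - x ^ 2) / k ≤ A) (hN : Φ * (1 / x + 1 / y) ≤ N) :
    ∃ a b : ℝ, 0 < a ∧ a < b ∧ Real.pi * (b ^ 2 - a ^ 2) = A ∧
      (1 / a + 1 / b) / Real.log (b / a) ≤ N / (T * Φ) := by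
  have pp := Real.pi_pos
  have hk0 : 0 < k := by
    by_contra h
    push Not at h
    nlinarith
  have hxy : x < y := by
    rw [hy]
    exact lt_mul_of_one_lt_right hx (Real.one_lt_exp_iff.2 (by positivity))
  have hy0 : 0 < y := hx.trans hxy
  have hd : 0 < y ^ 2 - x ^ 2 := by nlinarith
  have hA0 : 0 < A := lt_of_lt_of_le (by positivity) hA
  obtain ⟨r, hr⟩ : ∃ r, r = √(A / (Real.pi * (y ^ 2 - x ^ 2))) := ⟨_, rfl⟩
  have hr0 : 0 < r := by rw [hr]; positivity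
  have hr2 : Real.pi * (y ^ 2 - x ^ 2) * r ^ 2 = A := by
    rw [hr, Real.sq_sqrt (by positivity)]; field_simp
  refine ⟨r * x, r * y, by positivity, by gcongr, by rw [← hr2]; ring, ?_⟩
  have e1 : Real.log (r * y / (r * x)) = k * T / 2 := by
    rw [mul_div_mul_left _ _ hr0.ne', hy, mul_div_cancel_left₀ _ hx.ne', Real.log_exp]
  have e2 : 2 ≤ r * k := by
    refine le_of_sq_le_sq ?_ (by positivity)
    rw [← hr2, div_le_iff₀ hk0] at hA
    have a1 : Φ ≤ Real.pi * r ^ 2 * k := le_of_mul_le_mul_right (by linarith) hd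
    have a2 : Real.pi * 2 ^ 2 ≤ Real.pi * (r * k) ^ 2 := by nlinarith
    exact le_of_mul_le_mul_left a2 pp
  rw [e1]
  refine le_trans ?_ (div_le_div_of_nonneg_right hN (by positivity))
  have e3 : (1 / (r * x) + 1 / (r * y)) / (k * T / 2) = (1 / x + 1 / y) / T * (2 / (r * k)) := by
    field_simp
  have e4 : Φ * (1 / x + 1 / y) / (T * Φ) = (1 / x + 1 / y) / T := by field_simp
  rw [e3, e4]
  exact mul_le_of_le_one_right (by positivity) ((div_le_one (by positivity)).2 e2)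

theorem core {γ₁ γ₂ : ℝ → ℂ} {U : Set ℂ} {ψ : ℂ → ℝ} {g g1 : ℂ → ℂ} {c₁ c₂ : ℝ}
    (D : Dat γ₁ γ₂ U ψ g g1 c₁ c₂) (hc : c₁ < c₂) (hψ : ∀ z ∈ U, c₁ ≤ ψ z ∧ ψ z ≤ c₂)
    (r₁ : ∀ s, (g (γ₁ s) * deriv γ₁ s).re = 0) (r₂ : ∀ s, (g (γ₂ s) * deriv γ₂ s).re = 0)
    (m₁ : ∀ s, (g (γ₁ s) * deriv γ₁ s).im < 0) (m₂ : ∀ s, 0 < (g (γ₂ s) * deriv γ₂ s).im)
    (hB : Bl γ₂ g g1 0 = -(2 * Real.pi)) (N : ℝ)
    (hN : (∫ s in (0:ℝ)..1, ‖deriv γ₁ s‖ * normSq (g (γ₁ s))) +
      ∫ s in (0:ℝ)..1, ‖deriv γ₂ s‖ * normSq (g (γ₂ s)) ≤ N) :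
    ∃ a b : ℝ, 0 < a ∧ a < b ∧ Real.pi * (b ^ 2 - a ^ 2) = (volume U).toReal ∧
      (1 / a + 1 / b) / Real.log (b / a) ≤ N / ∫ z in U, normSq (g z) := by
  have cψ := D.cψ
  have cg := D.cg
  have cg1 := D.cg1
  have n₁ : ∀ s, g (γ₁ s) ≠ 0 := fun s e => by simpa [e] using m₁ s
  have n₂ : ∀ s, g (γ₂ s) ≠ 0 := fun s e => by simpa [e] using m₂ s
  have z0 : ∀ t : ℝ, HasDerivAt (fun _ : ℝ => (0:ℝ)) ((fun _ : ℝ => (0:ℝ)) t) t :=
    fun t => hasDerivAt_const _ _
  have i1 := ident D one_pos (fun _ => 1) (fun _ => 0) (fun _ => 0) (fun _ => 0) (fun _ => 0)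
    (fun t => hasDerivAt_const _ _) z0 z0 continuous_const continuous_const
  have i2 := ident D one_pos (fun t => t) (fun _ => 1) (fun _ => 0) (fun _ => 0) (fun _ => 0)
    (fun t => hasDerivAt_id _) z0 z0 continuous_const continuous_const
  simp only [zero_mul, mul_zero, add_zero, sub_zero, one_mul, integral_zero] at i1 i2
  obtain ⟨Φ, hΦ⟩ : ∃ Φ, Φ = Fl γ₂ g := ⟨_, rfl⟩
  have hΦ1 : Fl γ₁ g = -Φ := by linarith
  have hΦ0 : 0 < Φ := by
    have := D.H₂.c0
    have := D.H₂.c1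
    exact hΦ ▸ intervalIntegral.intervalIntegral_pos_of_pos_on
      (Continuous.intervalIntegrable (by fun_prop) _ _) (fun s _ => m₂ s) one_pos
  obtain ⟨T, hT⟩ : ∃ T, T = c₂ - c₁ := ⟨_, rfl⟩
  have hT0 : 0 < T := by linarith
  rw [i2, hΦ1, ← hΦ, show c₁ * -Φ + c₂ * Φ = T * Φ by rw [hT]; ring]
  obtain ⟨M₁, hM₁⟩ : ∃ M, Al γ₁ g 0 = M * Fl γ₁ g := ⟨Al γ₁ g 0 / -Φ, by rw [hΦ1]; field_simp⟩
  obtain ⟨M₂, hM₂⟩ : ∃ M, Al γ₂ g 0 = M * Fl γ₂ g := ⟨Al γ₂ g 0 / Φ, by rw [← hΦ]; field_simp⟩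
  have nrm : ∀ w : ℂ, w.re = 0 → ‖w‖ = |w.im| := fun w h => by
    rw [← Complex.abs_im_eq_norm.2 h]
  have j₁ := jens D.H₁ cg n₁ (-1) (fun s => by rw [← norm_mul, nrm _ (r₁ s), abs_of_neg (m₁ s)]; ring)
    M₁ hM₁
  have j₂ := jens D.H₂ cg n₂ 1 (fun s => by rw [← norm_mul, nrm _ (r₂ s), abs_of_pos (m₂ s)]; ring)
    M₂ hM₂
  rw [hΦ1] at j₁ hM₁
  rw [← hΦ] at j₂ hM₂
  have cA₁ := Al_cont D.H₁ cg n₁
  have cA₂ := Al_cont D.H₂ cg n₂
  have cB₂ := Bl_cont D.H₂ cg cg1 n₂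
  have i3 := lim0 (f := fun δ => Al γ₁ g (δ ^ 2) + Al γ₂ g (δ ^ 2) - 2 * T * Bl γ₂ g g1 (δ ^ 2))
    (by fun_prop) (a := 0) (fun δ hδ => by
      have := ident D (δ := δ ^ 2) (by positivity) (fun _ => 0) (fun _ => 0) (fun t => t - c₁)
        (fun _ => 1) (fun _ => 0) z0 (fun t => (hasDerivAt_id _).sub_const _)
        (fun t => hasDerivAt_const _ _) continuous_const continuous_const
      simp only [zero_mul, mul_zero, add_zero, sub_zero, one_mul, sub_self, zero_add, ← hT] at this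
      rw [add_sub_assoc, ← this]
      refine setIntegral_nonpos D.hU.measurableSet fun z hz => ?_
      have h1 := sub_nonneg.2 (hψ z hz).1
      have h2 := normSq_nonneg (g1 z)
      rw [zero_sub, neg_nonpos]
      positivity)
  simp only [ne_eq, OfNat.ofNat_ne_zero, not_false_eq_true, zero_pow, hM₁, hM₂, hB] at i3
  obtain ⟨k, hk⟩ : ∃ k, k = (M₁ - M₂) / T := ⟨_, rfl⟩
  have hkT : k * T = M₁ - M₂ := by rw [hk]; field_simp
  have hk1 : 4 * Real.pi ≤ k * Φ := le_of_mul_le_mul_right (by nlinarith) hT0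
  have hk0 : 0 < k := by
    by_contra h
    push Not at h
    nlinarith [Real.pi_pos]
  obtain ⟨l, hl⟩ : ∃ l : ℝ → ℝ, l = fun t => M₁ - k * (t - c₁) := ⟨_, rfl⟩
  have l1 : l c₁ = M₁ := by simp [hl]
  have l2 : l c₂ = M₂ := by simp only [hl, ← hT, hkT]; ring
  have dl : ∀ t, HasDerivAt l (-k) t := fun t => by
    rw [hl]; simpa using (((hasDerivAt_id t).sub_const c₁).const_mul k).const_sub M₁
  have dE : ∀ t, HasDerivAt (fun t => Real.exp (-l t)) (k * Real.exp (-l t)) t := fun t =>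
    (dl t).fun_neg.exp.congr_deriv (by ring)
  have cl : Continuous l := by rw [hl]; fun_prop
  obtain ⟨α, hα⟩ : ∃ α, α = (Real.exp (-M₂) - Real.exp (-M₁)) / T := ⟨_, rfl⟩
  have hαT : α * T = Real.exp (-M₂) - Real.exp (-M₁) := by rw [hα]; field_simp
  have i4 := lim0 (f := fun δ => ((Real.exp (-M₁) * (2 + M₁) / k) * -Φ +
      (α - k * Real.exp (-M₁)) / k ^ 2 * Al γ₁ g (δ ^ 2)) + ((Real.exp (-M₂) * (2 + M₂) / k) * Φ +
      (α - k * Real.exp (-M₂)) / k ^ 2 * Al γ₂ g (δ ^ 2)))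
    (by fun_prop) (a := (volume U).toReal) (fun δ hδ => by
      have hδ2 : 0 < δ ^ 2 := by positivity
      have := ident D hδ2 (fun t => Real.exp (-l t) * (2 + l t) / k)
        (fun t => Real.exp (-l t) * (1 + l t))
        (fun t => (Real.exp (-M₁) + α * (t - c₁) - Real.exp (-l t)) / k ^ 2)
        (fun t => (α - k * Real.exp (-l t)) / k ^ 2) (fun t => -Real.exp (-l t))
        (fun t => (((dE t).fun_mul ((dl t).const_add 2)).div_const k).congr_deriv (by field_simp; ring))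
        (fun t => ((((((hasDerivAt_id t).sub_const c₁).const_mul α).const_add _).fun_sub
          (dE t)).div_const _).congr_deriv (by simp))
        (fun t => ((((dE t).const_mul k).const_sub α).div_const _).congr_deriv (by field_simp))
        (by fun_prop) (by fun_prop)
      simp only [l1, l2, ← hT, hαT, hΦ1, ← hΦ, sub_self, mul_zero, add_zero, add_sub_cancel, zero_div,
        zero_mul, sub_zero] at this
      rw [← this]
      have n0 : ∀ z, normSq (g z) + δ ^ 2 ≠ 0 := fun z =>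
        (add_pos_of_nonneg_of_pos (normSq_nonneg _) hδ2).ne'
      have cn : Continuous fun z => normSq (g z) + δ ^ 2 := by fun_prop
      have clg := cn.log n0
      have ci : Continuous fun z => (normSq (g z) + δ ^ 2)⁻¹ := cn.inv₀ n0
      refine (setIntegral_mono_on (g := fun _ => (1:ℝ)) ((Continuous.continuousOn
        (by fun_prop)).integrableOn_compact D.hb.isCompact_closure |>.mono_set subset_closure)
        (integrableOn_const D.hb.measure_lt_top.ne) D.hU.measurableSet fun z hz => ?_).trans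
        (by simp [measureReal_def])
      have hη : Real.exp (-l (ψ z)) ≤ Real.exp (-M₁) + α * (ψ z - c₁) := by
        have h1 := (hψ z hz).1
        have h2 := (hψ z hz).2
        have := convexOn_exp.2 (mem_univ (-M₁)) (mem_univ (-M₂))
          (show 0 ≤ (c₂ - ψ z) / T from div_nonneg (by linarith) hT0.le)
          (show 0 ≤ (ψ z - c₁) / T from div_nonneg (by linarith) hT0.le)
          (by rw [hT]; field_simp [(sub_pos.2 hc).ne']; ring)
        simp only [smul_eq_mul] at this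
        have e1 : (c₂ - ψ z) / T * -M₁ + (ψ z - c₁) / T * -M₂ = -l (ψ z) := by
          rw [hl, hk, show c₂ = T + c₁ by linarith]; field_simp; ring
        have e2 : (c₂ - ψ z) / T * Real.exp (-M₁) + (ψ z - c₁) / T * Real.exp (-M₂) =
            Real.exp (-M₁) + α * (ψ z - c₁) := by
          rw [hα, show c₂ = T + c₁ by linarith]; field_simp; ring
        rwa [e1, e2] at this
      have x0 := normSq_nonneg (g z)
      have x1 := normSq_nonneg (g1 z)
      have xp : 0 < normSq (g z) + δ ^ 2 := by positivity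
      have a1 : 0 ≤ 4 * ((Real.exp (-M₁) + α * (ψ z - c₁) - Real.exp (-l (ψ z))) / k ^ 2) * δ ^ 2 *
          normSq (g1 z) * (normSq (g z) + δ ^ 2)⁻¹ ^ 2 := by
        have := sub_nonneg.2 hη
        positivity
      have a2 := Real.add_one_le_exp (l (ψ z) - Real.log (normSq (g z) + δ ^ 2))
      rw [Real.exp_sub, Real.exp_log xp] at a2
      have a3 := mul_le_mul_of_nonneg_left a2 (mul_nonneg (Real.exp_pos (-l (ψ z))).le x0)
      have a4 : Real.exp (-l (ψ z)) * normSq (g z) * (Real.exp (l (ψ z)) / (normSq (g z) + δ ^ 2)) ≤ 1 := by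
        rw [Real.exp_neg, mul_div_assoc', div_le_one xp, mul_right_comm,
          inv_mul_cancel₀ (Real.exp_pos _).ne']
        linarith
      linarith)
  simp only [ne_eq, OfNat.ofNat_ne_zero, not_false_eq_true, zero_pow, hM₁, hM₂] at i4
  have sq : ∀ M : ℝ, Real.exp (-(M / 2)) ^ 2 = Real.exp (-M) := fun M => by
    rw [← Real.exp_nat_mul]; congr 1; push_cast; ring
  refine fin hΦ0 hT0 hk1 (Real.exp_pos (-(M₁ / 2))) (y := Real.exp (-(M₂ / 2))) ?_ ?_ ?_
  · rw [← Real.exp_add, hkT]; congr 1; ring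
  · rw [sq, sq]
    refine le_trans (le_of_eq ?_) i4
    field_simp
    linear_combination k * hαT - α * hkT
  · simp only [Real.exp_neg, one_div, inv_inv]
    linarith

end Pool.Agent.H.MP_7e8329_an
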