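import Pool.Agent.H.MP_7e8329_an.F
import Pool.Agent.H.MP_7e8329_an.D

set_option autoImplicit false
open MeasureTheory Set Metric Filter Topology Complex InnerProductSpace

namespace Pool.Agent.H.MP_7e8329_an

lemma lin3 (L : ℂ →L[ℝ] ℝ) (v : ℂ) : L v = (((L 1 : ℂ) - I * L I) * v).re := by
  conv_lhs => rw [show v = v.re • (1 : ℂ) + v.im • I by simp]
  rw [map_add, map_smul, map_smul]
  simp
  ring

lemma nrm3 (L : ℂ →L[ℝ] ℝ) : ‖L‖ ^ 2 = normSq ((L 1 : ℂ) - I * L I) := by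
  have : L = innerSL ℝ ((starRingEnd ℂ) ((L 1 : ℂ) - I * L I)) := by
    ext v
    rw [innerSL_apply_apply, Complex.inner, conj_conj, lin3 L v, mul_comm]
  rw [← Complex.sq_norm, ← Complex.norm_conj, ← innerSL_apply_norm ℝ ((starRingEnd ℂ) _), ← this]

def Concl (U : Set ℂ) (ψ : ℂ → ℝ) : Prop :=
  ∃ a b : ℝ, 0 < a ∧ a < b ∧ Real.pi * (b ^ 2 - a ^ 2) = (volume U).toReal ∧
    (1 / a + 1 / b) / Real.log (b / a) ≤
      (∫ z in frontier U, ‖fderiv ℝ ψ z‖ ^ 2 ∂(Measure.hausdorffMeasure 1)) /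
        (∫ z in U, ‖fderiv ℝ ψ z‖ ^ 2)

theorem main1 {γ₁ γ₂ : ℝ → ℂ} (H₁ : Crv γ₁) (H₂ : Crv γ₂) (dis : Disjoint (range γ₁) (range γ₂))
    {U : Set ℂ} (hU : IsOpen U) (hcon : IsPreconnected U) (hb : Bornology.IsBounded U)
    (fr : frontier U = range γ₁ ∪ range γ₂) {ψ : ℂ → ℝ} (hψ : ContDiff ℝ 2 ψ) (hh : HarmonicOnNhd ψ U)
    {c₁ c₂ : ℝ} (hc : c₁ < c₂) (b₁ : ∀ t, ψ (γ₁ t) = c₁) (b₂ : ∀ t, ψ (γ₂ t) = c₂)
    {p : ℂ} (hp : p ∈ range γ₂) (hmin : ∀ z ∈ closure U, p.im ≤ z.im) : Concl U ψ := by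
  have cψ := hψ.continuous
  have dψ : Differentiable ℝ ψ := hψ.differentiable (by norm_num)
  have hu₁ : HarmonicOnNhd (fun z => ψ z - c₁) U := fun z hz => (hh z hz).sub (harmonicAt_const _)
  have hu₂ : HarmonicOnNhd (fun z => c₂ - ψ z) U := fun z hz => (harmonicAt_const _).sub (hh z hz)
  have p₁ := posU hU hcon hb hu₁ (by fun_prop) (q := γ₂ 0) (by
    rw [fr]; rintro _ (⟨t, rfl⟩ | ⟨t, rfl⟩) <;> simp [b₁, b₂, hc.le])
    (fr ▸ Or.inr (mem_range_self _)) (by simp [b₂, hc])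
  have p₂ := posU hU hcon hb hu₂ (by fun_prop) (q := γ₁ 0) (by
    rw [fr]; rintro _ (⟨t, rfl⟩ | ⟨t, rfl⟩) <;> simp [b₁, b₂, hc.le])
    (fr ▸ Or.inl (mem_range_self _)) (by simp [b₁, hc])
  obtain ⟨β₁, G₁, e₁, C₁, s₁⟩ := side' H₁ H₂.compact.isClosed dis hU fr hu₁ (by fun_prop) p₁
    (fun s => by simp [b₁])
  obtain ⟨β₂, G₂, e₂, C₂, s₂⟩ := side' H₂ H₁.compact.isClosed dis.symm hU (by rw [fr, union_comm]) hu₂
    (by fun_prop) p₂ (fun s => by simp [b₂])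
  have b₁' : ∀ t, ψ (β₁ t) = c₁ := fun t => by
    obtain ⟨s, hs⟩ : β₁ t ∈ range γ₁ := e₁ ▸ mem_range_self t
    rw [← hs, b₁]
  have b₂' : ∀ t, ψ (β₂ t) = c₂ := fun t => by
    obtain ⟨s, hs⟩ : β₂ t ∈ range γ₂ := e₂ ▸ mem_range_self t
    rw [← hs, b₂]
  rw [← e₁, ← e₂] at dis fr
  rw [← e₂] at hp
  obtain ⟨g, hg⟩ : ∃ g : ℂ → ℂ, g = fun z => (fderiv ℝ ψ z 1 : ℂ) - I * fderiv ℝ ψ z I := ⟨_, rfl⟩
  have f1 : ContDiff ℝ 1 (fderiv ℝ ψ) := hψ.fderiv_right (by norm_num)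
  have sg : ContDiff ℝ 1 g := by
    rw [hg]
    exact (ofRealCLM.contDiff.comp (f1.clm_apply contDiff_const)).sub
      (contDiff_const.mul (ofRealCLM.contDiff.comp (f1.clm_apply contDiff_const)))
  have cg := sg.continuous
  have cg' : Continuous (fderiv ℝ g) := sg.continuous_fderiv (by norm_num)
  have l3 : ∀ z v, fderiv ℝ ψ z v = (g z * v).re := fun z v => by rw [hg, lin3]
  have ag : ∀ z ∈ U, AnalyticAt ℂ g z := fun z hz => hg ▸ HarmonicAt.analyticAt_complex_partial (hh z hz)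
  have fd : ∀ z ∈ U, ∀ v, fderiv ℝ g z v = deriv g z * v := fun z hz v => by
    rw [((ag z hz).differentiableAt.hasDerivAt.hasFDerivAt.restrictScalars ℝ).fderiv]
    simp [mul_comm]
  have fd' : ∀ z ∈ closure U, ∀ v, fderiv ℝ g z v = fderiv ℝ g z 1 * v := fun z hz v =>
    closure_minimal (t := {z | fderiv ℝ g z v = fderiv ℝ g z 1 * v})
      (fun z hz => by simp [fd z hz]) (isClosed_eq (by fun_prop) (by fun_prop)) hz
  have D : Dat β₁ β₂ U ψ g (fun z => fderiv ℝ g z 1) c₁ c₂ :=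
    { H₁ := G₁, H₂ := G₂, hU := hU, hb := hb, C₁ := C₁, C₂ := C₂, dis := dis, fr := fr, cψ := cψ,
      cg := cg, cg1 := by fun_prop, b₁ := b₁', b₂ := b₂'
      dψ := fun z => ⟨_, ofRealCLM.hasFDerivAt.comp z (dψ z).hasFDerivAt, by simp [hg]⟩
      dg := fun z hz => by
        rw [fd z hz, mul_one]; exact (ag z hz).differentiableAt.hasDerivAt
      dg1 := fun z hz => (ag z hz).deriv.differentiableAt.congr_of_eventuallyEq (by
        filter_upwards [hU.mem_nhds hz] with w hw using by rw [fd w hw, mul_one]) }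
  have rr : ∀ {β : ℝ → ℂ} {c : ℝ}, Crv β → (∀ t, ψ (β t) = c) → ∀ s, (g (β s) * deriv β s).re = 0 := by
    intro β c G hb s
    have h1 := (dψ (β s)).hasFDerivAt.comp_hasDerivAt s (G.d1 s)
    rw [show ψ ∘ β = fun _ => c from funext hb] at h1
    rw [← l3]
    exact h1.unique (hasDerivAt_const _ _)
  have m₁ : ∀ s, (g (β₁ s) * deriv β₁ s).im < 0 := fun s => by
    have := s₁ s
    rw [fderiv_sub_const, l3, mul_left_comm, I_mul_re] at this
    linarith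
  have m₂ : ∀ s, 0 < (g (β₂ s) * deriv β₂ s).im := fun s => by
    have := s₂ s
    rw [fderiv_const_sub, neg_apply, l3, mul_left_comm, I_mul_re] at this
    linarith
  have cl₂ : ∀ s, β₂ s ∈ closure U := fun s => frontier_subset_closure (fr ▸ Or.inr (mem_range_self s))
  obtain ⟨s₀, rfl⟩ := hp
  have um := G₂.umlauf s₀ (fun t => hmin _ (cl₂ t)) (by
    obtain ⟨τ, ρ, C⟩ := C₂
    have := hmin _ (subset_closure (C.inU s₀ τ C.p1 le_rfl))
    simp only [Γ, add_im, mul_assoc, I_mul_im, re_ofReal_mul, le_add_iff_nonneg_right] at this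
    exact nonneg_of_mul_nonneg_right this C.p1 |> fun h => h)
  have hB : Bl β₂ g (fun z => fderiv ℝ g z 1) 0 = -(2 * Real.pi) := by
    rw [← um, ← intervalIntegral.integral_neg, Bl]
    congr 1
    funext s
    have h1 : HasDerivAt (fun s => g (β₂ s)) (fderiv ℝ g (β₂ s) 1 * deriv β₂ s) s := by
      rw [← fd' _ (cl₂ s)]
      exact (sg.differentiable (by norm_num) _).hasFDerivAt.comp_hasDerivAt s (G₂.d1 s)
    have h2 : HasDerivAt (fun s => (g (β₂ s) * deriv β₂ s).re) _ s :=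
      reCLM.hasFDerivAt.comp_hasDerivAt s (h1.mul (G₂.d2 s))
    rw [funext (rr G₂ b₂')] at h2
    have h3 := h2.unique (hasDerivAt_const _ _)
    have h4 := rr G₂ b₂' s
    have h5 := (m₂ s).ne'
    have h6 := G₂.reg s
    have h7 : g (β₂ s) ≠ 0 := fun e => by simp [e] at h5
    rw [reCLM_apply] at h3
    generalize g (β₂ s) = a at *
    generalize deriv β₂ s = v at *
    generalize deriv (deriv β₂) s = w at *
    generalize fderiv ℝ g (β₂ s) 1 = b at *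
    have e1 : (normSq a + 0)⁻¹ * (b * (starRingEnd ℂ) a * v).im = (b * v / a).im := by
      rw [add_zero, ← im_ofReal_mul, div_eq_mul_inv, Complex.inv_def]
      congr 1
      ring
    have e2 : b * v / a + w / v = (b * v * v + a * w) / (a * v) := by field_simp
    have e3 : ((b * v * v + a * w) / (a * v)).im = 0 := by rw [div_im, h3, h4]; simp
    rw [← e2, add_im] at e3
    rw [e1]
    linarith
  have nq : ∀ z, ‖fderiv ℝ ψ z‖ ^ 2 = normSq (g z) := fun z => by rw [hg, nrm3]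
  obtain ⟨i₁, k₁⟩ := haus G₁ (fun z => normSq (g z)) (by fun_prop) fun _ => normSq_nonneg _
  obtain ⟨i₂, k₂⟩ := haus G₂ (fun z => normSq (g z)) (by fun_prop) fun _ => normSq_nonneg _
  unfold Concl
  simp only [nq]
  refine core D hc (fun z hz => ⟨by linarith [p₁ z hz], by linarith [p₂ z hz]⟩) (rr G₁ b₁') (rr G₂ b₂')
    m₁ m₂ hB _ ?_
  rw [fr, setIntegral_union dis G₂.compact.isClosed.measurableSet i₁ i₂]
  linarith

theorem main2 {γ₁ γ₂ : ℝ → ℂ} (H₁ : Crv γ₁) (H₂ : Crv γ₂) (dis : Disjoint (range γ₁) (range γ₂))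
    {U : Set ℂ} (hU : IsOpen U) (hcon : IsPreconnected U) (hb : Bornology.IsBounded U)
    (fr : frontier U = range γ₁ ∪ range γ₂) {ψ : ℂ → ℝ} (hψ : ContDiff ℝ 2 ψ) (hh : HarmonicOnNhd ψ U)
    {c₁ c₂ : ℝ} (hc : c₁ ≠ c₂) (b₁ : ∀ t, ψ (γ₁ t) = c₁) (b₂ : ∀ t, ψ (γ₂ t) = c₂)
    {p : ℂ} (hp : p ∈ range γ₂) (hmin : ∀ z ∈ closure U, p.im ≤ z.im) : Concl U ψ := by
  rcases hc.lt_or_gt with h | h
  · exact main1 H₁ H₂ dis hU hcon hb fr hψ hh h b₁ b₂ hp hmin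
  · have := main1 H₁ H₂ dis hU hcon hb fr hψ.neg (fun z hz => (hh z hz).neg) (neg_lt_neg h)
      (fun t => by rw [b₁]) (fun t => by rw [b₂]) hp hmin
    simpa only [Concl, fderiv_fun_neg, norm_neg] using this

theorem main3 {γ₁ γ₂ : ℝ → ℂ} (H₁ : Crv γ₁) (H₂ : Crv γ₂) (dis : Disjoint (range γ₁) (range γ₂))
    {U : Set ℂ} (hU : IsOpen U) (hcon : IsConnected U) (hb : Bornology.IsBounded U)
    (fr : frontier U = range γ₁ ∪ range γ₂) {ψ : ℂ → ℝ} (hψ : ContDiff ℝ 2 ψ) (hh : HarmonicOnNhd ψ U)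
    {c₁ c₂ : ℝ} (hc : c₁ ≠ c₂) (b₁ : ∀ t, ψ (γ₁ t) = c₁) (b₂ : ∀ t, ψ (γ₂ t) = c₂) : Concl U ψ := by
  obtain ⟨p, hp, hmin⟩ := hb.isCompact_closure.exists_isMinOn hcon.nonempty.closure
    continuous_im.continuousOn
  have hp' : p ∈ frontier U := by
    refine ⟨hp, fun h => ?_⟩
    rw [hU.interior_eq] at h
    obtain ⟨ε, hε, hbl⟩ := Metric.isOpen_iff.1 hU p h
    have : p - (ε / 2 : ℝ) * I ∈ ball p ε := by
      rw [mem_ball_iff_norm, sub_sub_cancel_left, norm_neg, norm_mul, norm_I, norm_real,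
        Real.norm_of_nonneg (by positivity)]
      linarith
    have h2 : p.im ≤ (p - (ε / 2 : ℝ) * I).im := hmin (subset_closure (hbl this))
    simp at h2
    linarith
  rw [fr] at hp'
  rcases hp' with h | h
  · exact main2 H₂ H₁ dis.symm hU hcon.2 hb (by rw [fr, union_comm]) hψ hh hc.symm b₂ b₁ h hmin
  · exact main2 H₁ H₂ dis hU hcon.2 hb fr hψ hh hc b₁ b₂ h hmin

lemma mkCrv {γ : ℝ → ℂ} (h1 : ContDiff ℝ (⊤ : ℕ∞) γ) (h2 : Function.Periodic γ 1)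
    (h3 : InjOn γ (Ico 0 1)) (h4 : ∀ t, deriv γ t ≠ 0) : Crv γ := by
  refine ⟨h1, h2, fun s h h0 h1 e => ?_, h4⟩
  have fr : ∀ x, γ (Int.fract x) = γ x := fun x => by
    rw [← h2.int_mul ⌊x⌋ (Int.fract x)]
    congr 1
    have := Int.floor_add_fract x
    linarith
  have := h3 ⟨Int.fract_nonneg (s + h), Int.fract_lt_one _⟩ ⟨Int.fract_nonneg s, Int.fract_lt_one _⟩
    (by rw [fr, fr, e])
  obtain ⟨n, hn⟩ := Int.fract_eq_fract.1 this
  rw [add_sub_cancel_left] at hn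
  rw [hn] at h0 h1
  have a : (0 : ℤ) < n := by exact_mod_cast h0
  have b : n < (1 : ℤ) := by exact_mod_cast h1
  omega

end Pool.Agent.H.MP_7e8329_an
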